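import Pool.Agent.W360.HF.Small

set_option autoImplicit false

/-!
# The ratio tends to zero
-/

namespace Pool.Agent.W360.HF

open Classical in
theorem main_ineq {r : ℕ} (h0 : r ≠ 0) (hr : 2 * r ^ 4 * 3 ^ (r / 24) ≤ 4 ^ (r / 24)) :
    (NQ r).card * 2 ^ (r / 6) ≤
      2 * (16 * r ^ 4 + r + 1) * (r + 1) ^ (Nat.log 2 r) * (NH r).card := by
  by_cases hne : NQ r = ∅
  · rw [hne]; simp
  · obtain ⟨C, hC⟩ := Finset.nonempty_iff_ne_empty.2 hne
    rw [NQ, Finset.mem_image] at hC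
    obtain ⟨p, hp, rfl⟩ := hC
    rw [Finset.mem_filter] at hp
    have hm := hp.2.isW.1
    have h1 := (table_count hm hr).2
    have h2 := count2 hm
    have h3 := count3 r
    have h4 := count4 r hr
    have h5 := count1 r
    have h6 := small_count h0
    have h7 := G0_pos r
    set α := (r + 1) ^ (Nat.log 2 r) with hα
    have h8 : 2 ^ (r / 6) ≤ 2 * (α * (NH r).card) := h1.trans (Nat.mul_le_mul_left _ h2)
    have h9 : ((LB r).image clsQ).card * 2 ^ (r / 6) ≤ 2 * r * α * (NH r).card := by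
      refine Nat.le_of_mul_le_mul_right (c := (G0 r).card) ?_ h7
      calc ((LB r).image clsQ).card * 2 ^ (r / 6) * (G0 r).card
          = ((LB r).image clsQ).card * (G0 r).card * 2 ^ (r / 6) := by ring
        _ ≤ α * (LB r).card * 2 ^ (r / 6) := Nat.mul_le_mul_right _ h3
        _ = α * ((LB r).card * 2 ^ (r / 6)) := by ring
        _ ≤ α * (2 * r * ((Finset.univ : Finset (Str r)).filter (IsH r)).card) :=
            Nat.mul_le_mul_left _ h4
        _ ≤ α * (2 * r * ((G0 r).card * (NH r).card)) :=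
            Nat.mul_le_mul_left _ (Nat.mul_le_mul_left _ h5)
        _ = _ := by ring
    calc (NQ r).card * 2 ^ (r / 6)
        ≤ (((LB r).image clsQ).card + (16 * r ^ 4 + 1)) * 2 ^ (r / 6) :=
          Nat.mul_le_mul_right _ h6
      _ = ((LB r).image clsQ).card * 2 ^ (r / 6) + (16 * r ^ 4 + 1) * 2 ^ (r / 6) := by ring
      _ ≤ 2 * r * α * (NH r).card + (16 * r ^ 4 + 1) * (2 * (α * (NH r).card)) :=
          Nat.add_le_add h9 (Nat.mul_le_mul_left _ h8)
      _ = _ := by ring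

theorem log_ineq {L : ℕ} (hL : 11 ≤ L) : 6 * (L ^ 2 + 6 * L + 11) ≤ 2 ^ L := by
  induction L, hL using Nat.le_induction with
  | base => norm_num
  | succ L hL ih =>
    have h : 2 ^ (L + 1) = 2 * 2 ^ L := by ring
    rw [h]
    nlinarith

theorem ratio_bound {r : ℕ} (h0 : 2 ^ 11 ≤ r) (hr : 2 * r ^ 4 * 3 ^ (r / 24) ≤ 4 ^ (r / 24)) :
    ((NQ r).card : ℝ) / ((NH r).card : ℝ) ≤ 2 * ((1 : ℝ) / ((r : ℝ) + 1)) := by
  have hr0 : r ≠ 0 := by
    rintro rfl; norm_num at h0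
  have h1 := main_ineq hr0 hr
  set L := Nat.log 2 r with hLdef
  have hL : 11 ≤ L := Nat.le_log_of_pow_le (by norm_num) h0
  have hLr : 2 ^ L ≤ r := Nat.pow_log_le_self 2 hr0
  have hrL : r + 1 ≤ 2 ^ (L + 1) := Nat.lt_pow_succ_log_self (by norm_num) r
  have h2 : L ^ 2 + 6 * L + 11 ≤ r / 6 := by
    rw [Nat.le_div_iff_mul_le (by norm_num)]
    have := log_ineq hL
    linarith
  have h3 : (r + 1) ^ L ≤ 2 ^ ((L + 1) * L) := by
    rw [pow_mul]
    exact Nat.pow_le_pow_left hrL L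
  have h4 : 16 * r ^ 4 + r + 1 ≤ 2 ^ (4 * L + 8) := by
    have h41 : (r + 1) ^ 4 ≤ (2 ^ (L + 1)) ^ 4 := Nat.pow_le_pow_left hrL 4
    have h42 : 16 * r ^ 4 + r + 1 ≤ 16 * (r + 1) ^ 4 := by
      ring_nf
      nlinarith [sq_nonneg r, pow_pos (Nat.pos_of_ne_zero hr0) 3]
    calc 16 * r ^ 4 + r + 1 ≤ 16 * (r + 1) ^ 4 := h42
      _ ≤ 16 * (2 ^ (L + 1)) ^ 4 := Nat.mul_le_mul_left _ h41
      _ = 2 ^ (4 * L + 8) := by ring
  have h5 : (NQ r).card * (r + 1) ≤ 2 * (NH r).card := by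
    have hpos : 0 < 2 ^ (L ^ 2 + 5 * L + 9) := by positivity
    refine le_of_mul_le_mul_left (a := 2 ^ (L ^ 2 + 5 * L + 9)) ?_ hpos
    calc 2 ^ (L ^ 2 + 5 * L + 9) * ((NQ r).card * (r + 1))
        ≤ 2 ^ (L ^ 2 + 5 * L + 9) * ((NQ r).card * 2 ^ (L + 1)) := by gcongr
      _ = (NQ r).card * 2 ^ (L ^ 2 + 6 * L + 10) := by ring
      _ ≤ (NQ r).card * 2 ^ (r / 6) := by
          refine Nat.mul_le_mul_left _ (Nat.pow_le_pow_right (by norm_num) ?_)
          omega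
      _ ≤ 2 * (16 * r ^ 4 + r + 1) * (r + 1) ^ L * (NH r).card := h1
      _ ≤ 2 * 2 ^ (4 * L + 8) * 2 ^ ((L + 1) * L) * (NH r).card := by gcongr
      _ ≤ 2 ^ (L ^ 2 + 5 * L + 9) * (2 * (NH r).card) := by
          have : 2 * 2 ^ (4 * L + 8) * 2 ^ ((L + 1) * L) = 2 ^ (L ^ 2 + 5 * L + 9) := by ring
          rw [this]
          exact Nat.mul_le_mul_left _ (by omega)
  rcases Nat.eq_zero_or_pos (NH r).card with h | h
  · rw [h]
    simp only [Nat.cast_zero, div_zero]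
    positivity
  · have h6 : ((NQ r).card : ℝ) * ((r : ℝ) + 1) ≤ 2 * ((NH r).card : ℝ) := by exact_mod_cast h5
    have h7 : (0 : ℝ) < (NH r).card := by exact_mod_cast h
    have h8 : (0 : ℝ) < (r : ℝ) + 1 := by positivity
    rw [mul_one_div, div_le_div_iff₀ h7 h8]
    exact h6

theorem eventually_hr : ∀ᶠ r : ℕ in Filter.atTop, 2 * r ^ 4 * 3 ^ (r / 24) ≤ 4 ^ (r / 24) := by
  have h1 := tendsto_pow_const_mul_const_pow_of_abs_lt_one 4 (r := (3/4 : ℝ))
    (by rw [abs_of_pos (by norm_num)]; norm_num)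
  have h2 : ∀ᶠ k : ℕ in Filter.atTop, (k : ℝ) ^ 4 * (3/4 : ℝ) ^ k < 1 / 10616832 :=
    h1.eventually_lt_const (by norm_num)
  rw [Filter.eventually_atTop] at h2
  obtain ⟨K, hK⟩ := h2
  rw [Filter.eventually_atTop]
  refine ⟨24 * (K + 1), fun r hr => ?_⟩
  set k := r / 24 with hk
  have hk1 : K + 1 ≤ k := by
    rw [hk, Nat.le_div_iff_mul_le (by norm_num)]
    omega
  have hk2 : r ≤ 24 * (2 * k) := by omega
  have h3 := hK k (by omega)
  have h4 : (0 : ℝ) < 4 ^ k := by positivity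
  rw [div_pow, mul_div_assoc', div_lt_div_iff₀ h4 (by norm_num)] at h3
  have h5 : k ^ 4 * 3 ^ k * 10616832 < 1 * 4 ^ k := by exact_mod_cast h3
  calc 2 * r ^ 4 * 3 ^ k ≤ 2 * (24 * (2 * k)) ^ 4 * 3 ^ k := by gcongr
    _ = k ^ 4 * 3 ^ k * 10616832 := by ring
    _ ≤ 4 ^ k := by omega

theorem final : Filter.Tendsto (fun r : ℕ => ((NQ r).card : ℝ) / ((NH r).card : ℝ))
    Filter.atTop (nhds 0) := by
  have h1 : Filter.Tendsto (fun r : ℕ => 2 * ((1 : ℝ) / ((r : ℝ) + 1))) Filter.atTop (nhds 0) := by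
    have := (tendsto_one_div_add_atTop_nhds_zero_nat (𝕜 := ℝ)).const_mul 2
    simpa using this
  refine squeeze_zero' ?_ ?_ h1
  · exact Filter.Eventually.of_forall fun r => by positivity
  · filter_upwards [eventually_hr, Filter.eventually_ge_atTop (2 ^ 11)] with r h1 h2
    exact ratio_bound h2 h1

end Pool.Agent.W360.HF
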