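import Pool.Agent.W360.HF.Upper

set_option autoImplicit false

/-!
# Counting isomorphism classes
-/

namespace Pool.Agent.W360.HF

variable {r : ℕ}

/-- transport of structure -/
def act (e : Equiv.Perm (Fin (r+1))) (p : Str r) : Str r :=
  (fun a b => e (p.1 (e.symm a) (e.symm b)), fun a b => e '' p.2 (e.symm a) (e.symm b))

theorem act_mul (e e' : Equiv.Perm (Fin (r+1))) (p : Str r) :
    act e (act e' p) = act (e * e') p := by
  unfold act
  ext a b
  · rfl
  · dsimp only
    rw [← Set.image_comp]; rfl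

theorem act_one (p : Str r) : act 1 p = p := by
  unfold act
  refine Prod.ext ?_ ?_
  · rfl
  · funext a b
    show (id : Fin (r+1) → Fin (r+1)) '' _ = _
    rw [Set.image_id]; rfl

theorem iso_iff (p q : Str r) : Iso r p q ↔ ∃ e : Equiv.Perm (Fin (r+1)), q = act e p := by
  constructor
  · rintro ⟨e, he⟩
    refine ⟨e, ?_⟩
    refine Prod.ext ?_ ?_
    · funext a b
      have := (he (e.symm a) (e.symm b)).1
      rw [Equiv.apply_symm_apply, Equiv.apply_symm_apply] at this
      exact this.symm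
    · funext a b
      have := (he (e.symm a) (e.symm b)).2
      rw [Equiv.apply_symm_apply, Equiv.apply_symm_apply] at this
      exact this.symm
  · rintro ⟨e, rfl⟩
    refine ⟨e, fun a b => ⟨?_, ?_⟩⟩
    · show e _ = e (p.1 (e.symm (e a)) (e.symm (e b)))
      rw [Equiv.symm_apply_apply, Equiv.symm_apply_apply]
    · show e '' _ = e '' (p.2 (e.symm (e a)) (e.symm (e b)))
      rw [Equiv.symm_apply_apply, Equiv.symm_apply_apply]

theorem iso_refl (p : Str r) : Iso r p p := (iso_iff p p).2 ⟨1, (act_one p).symm⟩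

theorem iso_symm {p q : Str r} (h : Iso r p q) : Iso r q p := by
  obtain ⟨e, rfl⟩ := (iso_iff p q).1 h
  exact (iso_iff _ _).2 ⟨e⁻¹, by rw [act_mul, inv_mul_cancel, act_one]⟩

theorem iso_trans {p q s : Str r} (h : Iso r p q) (h' : Iso r q s) : Iso r p s := by
  obtain ⟨e, rfl⟩ := (iso_iff p q).1 h
  obtain ⟨e', rfl⟩ := (iso_iff _ s).1 h'
  exact (iso_iff _ _).2 ⟨e' * e, by rw [act_mul]⟩

theorem perm_zero {m m' : Fin (r+1) → Fin (r+1) → Fin (r+1)} (hm : IsM r m) (hm' : IsM r m')
    (e : Equiv.Perm (Fin (r+1))) (he : ∀ a b, e (m a b) = m' (e a) (e b)) : e 0 = 0 := by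
  have := he 0 (e.symm 0)
  rw [hm.2.2.2.1, Equiv.apply_symm_apply, hm'.2.1, hm'.2.2.2.1] at this
  exact this

theorem isQ_act {p : Str r} (hp : IsQ r p) {e : Equiv.Perm (Fin (r+1))} (he : e 0 = 0) :
    IsQ r (act e p) := by
  obtain ⟨K, _, G, f, hs, h0, hf, hm, ha⟩ := hp
  refine ⟨K, _, G, fun x => e (f x), e.surjective.comp hs, by simp [h0, he], ?_, ?_, ?_⟩
  · intro x y
    rw [← hf]
    exact ⟨fun h => e.injective h, fun h => congrArg e h⟩
  · intro x y
    show e _ = e (p.1 (e.symm (e _)) (e.symm (e _)))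
    rw [Equiv.symm_apply_apply, Equiv.symm_apply_apply, hm]
  · intro x y
    show e '' (p.2 (e.symm (e _)) (e.symm (e _))) = _
    rw [Equiv.symm_apply_apply, Equiv.symm_apply_apply, ha]
    ext z
    constructor
    · rintro ⟨w, ⟨g, hg, h, hh, rfl⟩, rfl⟩
      exact ⟨g, hg, h, hh, rfl⟩
    · rintro ⟨g, hg, h, hh, rfl⟩
      exact ⟨_, ⟨g, hg, h, hh, rfl⟩, rfl⟩

theorem big_act {p : Str r} (hp : Big r p) {e : Equiv.Perm (Fin (r+1))} (he : e 0 = 0) :
    Big r (act e p) := by
  obtain ⟨u, v, hu0, hu, hv, hall⟩ := hp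
  refine ⟨e u, e v, ?_, ?_, ?_, ?_⟩
  · intro h; apply hu0; apply e.injective; rw [h, he]
  · intro a
    show e (p.1 (e.symm (e u)) (e.symm a)) = a
    rw [Equiv.symm_apply_apply, hu, Equiv.apply_symm_apply]
  · show (0 : Fin (r+1)) ∈ e '' p.2 (e.symm (e u)) (e.symm (e v))
    rw [Equiv.symm_apply_apply, Equiv.symm_apply_apply]
    exact ⟨0, hv, he⟩
  · intro z
    show z ∈ e '' p.2 (e.symm (e u)) (e.symm (e v))
    rw [Equiv.symm_apply_apply, Equiv.symm_apply_apply]
    exact ⟨e.symm z, hall _, e.apply_symm_apply z⟩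

/-- class of a hyperfield -/
def clsH (p : Str r) : Set (Str r) := {q | IsH r q ∧ Iso r p q}

/-- class of a quotient hyperfield -/
def clsQ (p : Str r) : Set (Str r) := {q | IsQ r q ∧ Iso r p q}

theorem clsQ_eq {p q : Str r} (h : Iso r p q) : clsQ p = clsQ q := by
  ext s
  exact ⟨fun hs => ⟨hs.1, iso_trans (iso_symm h) hs.2⟩, fun hs => ⟨hs.1, iso_trans h hs.2⟩⟩

open Classical in
/-- the classes of hyperfields -/
noncomputable def NH (r : ℕ) : Finset (Set (Str r)) :=
  ((Finset.univ : Finset (Str r)).filter (IsH r)).image clsH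

open Classical in
/-- the classes of quotient hyperfields -/
noncomputable def NQ (r : ℕ) : Finset (Set (Str r)) :=
  ((Finset.univ : Finset (Str r)).filter (IsQ r)).image clsQ

theorem NH_coe (r : ℕ) : {C : Set (Str r) | ∃ p, IsH r p ∧ C = {q | IsH r q ∧ Iso r p q}}
    = (NH r : Set (Set (Str r))) := by
  ext C
  simp only [NH, Finset.coe_image, Finset.coe_filter, Finset.mem_univ, true_and]
  constructor
  · rintro ⟨p, hp, rfl⟩; exact ⟨p, hp, rfl⟩
  · rintro ⟨p, hp, rfl⟩; exact ⟨p, hp, rfl⟩

theorem NQ_coe (r : ℕ) : {C : Set (Str r) | ∃ p, IsQ r p ∧ C = {q | IsQ r q ∧ Iso r p q}}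
    = (NQ r : Set (Set (Str r))) := by
  ext C
  simp only [NQ, Finset.coe_image, Finset.coe_filter, Finset.mem_univ, true_and]
  constructor
  · rintro ⟨p, hp, rfl⟩; exact ⟨p, hp, rfl⟩
  · rintro ⟨p, hp, rfl⟩; exact ⟨p, hp, rfl⟩

open Classical in
/-- permutations fixing `0` -/
noncomputable def G0 (r : ℕ) : Finset (Equiv.Perm (Fin (r+1))) :=
  (Finset.univ : Finset (Equiv.Perm (Fin (r+1)))).filter (fun e => e 0 = 0)

theorem G0_pos (r : ℕ) : 0 < (G0 r).card :=
  Finset.card_pos.2 ⟨1, by simp [G0]⟩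

open Classical in
theorem count1 (r : ℕ) : ((Finset.univ : Finset (Str r)).filter (IsH r)).card
    ≤ (G0 r).card * (NH r).card := by
  refine Finset.card_le_mul_card_image _ _ ?_
  intro C hC
  rw [Finset.mem_image] at hC
  obtain ⟨p, hp, rfl⟩ := hC
  rw [Finset.mem_filter] at hp
  refine (Finset.card_le_card (t := (G0 r).image (fun e => act e p)) ?_).trans
    Finset.card_image_le
  intro q hq
  rw [Finset.mem_filter, Finset.mem_filter] at hq
  have h1 : q ∈ clsH q := ⟨hq.1.2, iso_refl q⟩
  rw [hq.2] at h1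
  obtain ⟨e, he⟩ := h1.2
  have he0 : e 0 = 0 := perm_zero hp.2.isM hq.1.2.isM e (fun a b => (he a b).1)
  refine Finset.mem_image.2 ⟨e, by simp [G0, he0], ?_⟩
  refine Prod.ext ?_ ?_
  · funext a b
    have := (he (e.symm a) (e.symm b)).1
    rw [Equiv.apply_symm_apply, Equiv.apply_symm_apply] at this
    exact this
  · funext a b
    have := (he (e.symm a) (e.symm b)).2
    rw [Equiv.apply_symm_apply, Equiv.apply_symm_apply] at this
    exact this

open Classical in
theorem count2 {m : Fin (r+1) → Fin (r+1) → Fin (r+1)} (hm : IsM r m) :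
    ((Finset.univ : Finset (Fin (r+1) → Fin (r+1) → Set (Fin (r+1)))).filter
      (fun h => IsH r (m, h))).card ≤ (r + 1) ^ (Nat.log 2 r) * (NH r).card := by
  have h1 : ((Finset.univ : Finset (Fin (r+1) → Fin (r+1) → Set (Fin (r+1)))).filter
      (fun h => IsH r (m, h))).card ≤ (r + 1) ^ (Nat.log 2 r) *
      (((Finset.univ : Finset (Fin (r+1) → Fin (r+1) → Set (Fin (r+1)))).filter
      (fun h => IsH r (m, h))).image (fun h => clsH (m, h))).card := by
    refine Finset.card_le_mul_card_image _ _ ?_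
    intro C hC
    rw [Finset.mem_image] at hC
    obtain ⟨h, hh, rfl⟩ := hC
    rw [Finset.mem_filter] at hh
    refine le_trans ?_ (aut_count hm)
    refine (Finset.card_le_card (t := ((Finset.univ : Finset (Equiv.Perm (Fin (r+1)))).filter
      (fun e => ∀ a b, e (m a b) = m (e a) (e b))).image (fun e => (act e (m, h)).2)) ?_).trans
      Finset.card_image_le
    intro h' hh'
    rw [Finset.mem_filter, Finset.mem_filter] at hh'
    have h1 : (m, h') ∈ clsH (m, h') := ⟨hh'.1.2, iso_refl _⟩
    rw [hh'.2] at h1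
    obtain ⟨e, he⟩ := h1.2
    refine Finset.mem_image.2 ⟨e, ?_, ?_⟩
    · rw [Finset.mem_filter]
      exact ⟨Finset.mem_univ _, fun a b => (he a b).1⟩
    · funext a b
      have := (he (e.symm a) (e.symm b)).2
      rw [Equiv.apply_symm_apply, Equiv.apply_symm_apply] at this
      exact this
  refine h1.trans (Nat.mul_le_mul_left _ (Finset.card_le_card ?_))
  intro C hC
  rw [Finset.mem_image] at hC
  obtain ⟨h, hh, rfl⟩ := hC
  rw [Finset.mem_filter] at hh
  exact Finset.mem_image.2 ⟨(m, h), by simp [hh.2], rfl⟩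

open Classical in
/-- big quotient structures -/
noncomputable def LB (r : ℕ) : Finset (Str r) :=
  (Finset.univ : Finset (Str r)).filter (fun p => IsQ r p ∧ Big r p)

open Classical in
theorem count3 (r : ℕ) : ((LB r).image clsQ).card * (G0 r).card
    ≤ (r + 1) ^ (Nat.log 2 r) * (LB r).card := by
  rw [Finset.card_eq_sum_card_image clsQ (LB r), Finset.mul_sum]
  calc ((LB r).image clsQ).card * (G0 r).card = ∑ C ∈ (LB r).image clsQ, (G0 r).card := by
        rw [Finset.sum_const, smul_eq_mul]
    _ ≤ _ := by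
        refine Finset.sum_le_sum fun C hC => ?_
        rw [Finset.mem_image] at hC
        obtain ⟨p, hp, rfl⟩ := hC
        have hp' := hp
        rw [LB, Finset.mem_filter] at hp'
        obtain ⟨-, hQ, hB⟩ := hp'
        have h1 : (G0 r).card ≤ (r + 1) ^ (Nat.log 2 r) *
            ((G0 r).image (fun e => act e p)).card := by
          refine Finset.card_le_mul_card_image _ _ ?_
          intro q hq
          rw [Finset.mem_image] at hq
          obtain ⟨e0, he0, rfl⟩ := hq
          refine le_trans ?_ (aut_count hQ.isW.1)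
          refine Finset.card_le_card_of_injOn (fun e => e0⁻¹ * e) ?_ ?_
          · intro e he
            have he' := (Finset.mem_filter.1 he).2
            have h2 : act (e0⁻¹ * e) p = p := by
              rw [← act_mul, he', act_mul, inv_mul_cancel, act_one]
            have h3 := (iso_iff p p).2 ⟨e0⁻¹ * e, h2.symm⟩
            rw [Finset.mem_coe, Finset.mem_filter]
            refine ⟨Finset.mem_univ _, fun a b => ?_⟩
            have h4 := congrFun (congrFun (congrArg Prod.fst h2) ((e0⁻¹ * e) a)) ((e0⁻¹ * e) b)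
            change (e0⁻¹ * e) (p.1 ((e0⁻¹ * e).symm ((e0⁻¹ * e) a))
              ((e0⁻¹ * e).symm ((e0⁻¹ * e) b))) = _ at h4
            rw [Equiv.symm_apply_apply, Equiv.symm_apply_apply] at h4
            exact h4
          · intro e _ e' _ h
            exact mul_left_cancel h
        refine h1.trans (Nat.mul_le_mul_left _ (Finset.card_le_card ?_))
        intro q hq
        rw [Finset.mem_image] at hq
        obtain ⟨e, he, rfl⟩ := hq
        have he0 : e 0 = 0 := by simpa [G0] using he
        rw [Finset.mem_filter, LB, Finset.mem_filter]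
        refine ⟨⟨Finset.mem_univ _, isQ_act hQ he0, big_act hB he0⟩, ?_⟩
        exact clsQ_eq (iso_symm ((iso_iff _ _).2 ⟨e, rfl⟩))

open Classical in
theorem count4 (r : ℕ) (hr : 2 * r ^ 4 * 3 ^ (r / 24) ≤ 4 ^ (r / 24)) :
    (LB r).card * 2 ^ (r / 6) ≤ 2 * r * ((Finset.univ : Finset (Str r)).filter (IsH r)).card := by
  rw [LB, Finset.card_filter, Finset.card_filter, Fintype.sum_prod_type, Fintype.sum_prod_type,
    Finset.sum_mul, Finset.mul_sum]
  refine Finset.sum_le_sum fun m _ => ?_
  rw [← Finset.card_filter, ← Finset.card_filter]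
  by_cases hm : IsM r m
  · refine le_trans (Nat.mul_le_mul_right _ (Finset.card_le_card ?_)) (table_count hm hr).1
    intro h hh
    rw [Finset.mem_filter] at hh ⊢
    exact ⟨hh.1, hh.2.1.isW, hh.2.2⟩
  · have : (Finset.univ : Finset (Fin (r+1) → Fin (r+1) → Set (Fin (r+1)))).filter
        (fun h => IsQ r (m, h) ∧ Big r (m, h)) = ∅ := by
      rw [Finset.filter_eq_empty_iff]
      intro h _ hh
      exact hm hh.1.isW.1
    rw [this]; simp

end Pool.Agent.W360.HF
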