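import Mathlib

set_option autoImplicit false

/-!
# Differences of a multiplicative subgroup of small index in a finite field
-/

namespace Pool.Agent.W360.HF

open Finset

theorem conj_addChar {K : Type} [Field K] [Fintype K] (ψ : AddChar K ℂ) (a : K) :
    (starRingEnd ℂ) (ψ a) = ψ (-a) := by
  have h : 0 < ringChar K := by
    have := CharP.char_ne_zero_of_finite K (ringChar K)
    omega
  rw [AddChar.starComp_apply h, AddChar.inv_apply]

/-- If the subset `T` of nonzero elements is stable under multiplication by its elements and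
`T.card ^ 4 > q ^ 3`, then every nonzero `c` satisfies `x - y = c z` with `x, y, z ∈ T`. -/
theorem diff_finset {K : Type} [Field K] [Fintype K] [DecidableEq K] (T : Finset K)
    (h0 : (0 : K) ∉ T) (hmul : ∀ g ∈ T, T.image (fun x => g * x) = T)
    (hbig : Fintype.card K ^ 3 < T.card ^ 4) (c : K) (hc : c ≠ 0) :
    ∃ x ∈ T, ∃ y ∈ T, ∃ z ∈ T, x - y = c * z := by
  by_contra hcon
  push Not at hcon
  obtain ⟨ψ, hψ⟩ : ∃ ψ : AddChar K ℂ, ψ 1 ≠ 1 :=
    (AddChar.exists_apply_ne_zero).2 one_ne_zero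
  have hψ1 : ψ ≠ 1 := by
    intro h; rw [h] at hψ; exact hψ rfl
  have hprim : ψ.IsPrimitive := AddChar.IsPrimitive.of_ne_one hψ1
  let S : K → ℂ := fun a => ∑ x ∈ T, ψ (a * x)
  have hsum : ∀ b : K, ∑ a : K, ψ (a * b) = if b = 0 then (Fintype.card K : ℂ) else 0 := by
    intro b
    have := AddChar.sum_mulShift b hprim
    rw [this]
    split_ifs <;> simp
  have hconj : ∀ a, (starRingEnd ℂ) (S a) = ∑ x ∈ T, ψ (a * (-x)) := by
    intro a
    simp only [S, map_sum, conj_addChar, mul_neg]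
  -- Parseval
  have hpars : ∑ a : K, S a * (starRingEnd ℂ) (S a) = (Fintype.card K : ℂ) * T.card := by
    have : ∀ a : K, S a * (starRingEnd ℂ) (S a)
        = ∑ x ∈ T, ∑ y ∈ T, ψ (a * (x - y)) := by
      intro a
      rw [hconj, Finset.sum_mul_sum]
      refine Finset.sum_congr rfl fun x _ => Finset.sum_congr rfl fun y _ => ?_
      rw [← AddChar.map_add_eq_mul]
      congr 1; ring
    simp only [this]
    rw [Finset.sum_comm]
    have h2 : ∀ x ∈ T, ∑ a : K, ∑ y ∈ T, ψ (a * (x - y)) = (Fintype.card K : ℂ) := by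
      intro x hx
      rw [Finset.sum_comm]
      simp only [hsum]
      rw [Finset.sum_eq_single x]
      · simp
      · intro y _ hyx
        rw [if_neg (sub_ne_zero.2 (Ne.symm hyx))]
      · intro h; exact absurd hx h
    rw [Finset.sum_congr rfl h2]
    simp [mul_comm]
  have hnorm : ∀ a, S a * (starRingEnd ℂ) (S a) = ((‖S a‖ ^ 2 : ℝ) : ℂ) := by
    intro a
    rw [Complex.mul_conj, Complex.normSq_eq_norm_sq]
  have hpars' : ∑ a : K, ‖S a‖ ^ 2 = (Fintype.card K : ℝ) * T.card := by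
    have := hpars
    simp only [hnorm] at this
    exact_mod_cast this
  have hTpos : 0 < T.card := by
    rcases Nat.eq_zero_or_pos T.card with h | h
    · rw [h] at hbig; simp at hbig
    · exact h
  have hinv : ∀ g ∈ T, ∀ a, S (a * g) = S a := by
    intro g hg a
    have hinj : Set.InjOn (fun x => g * x) (T : Set K) := by
      intro x _ y _ hxy
      have hg0 : g ≠ 0 := fun h => h0 (h ▸ hg)
      exact mul_left_cancel₀ hg0 hxy
    simp only [S]
    conv_rhs => rw [← hmul g hg]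
    rw [Finset.sum_image hinj]
    refine Finset.sum_congr rfl fun x _ => ?_
    rw [mul_assoc]
  have hbound : ∀ a, a ≠ 0 → ‖S a‖ ^ 2 ≤ Fintype.card K := by
    intro a ha
    have h1 : ∑ g ∈ T, ‖S (a * g)‖ ^ 2 ≤ ∑ b : K, ‖S b‖ ^ 2 := by
      have hinj : Set.InjOn (fun x => a * x) (T : Set K) := fun x _ y _ hxy =>
        mul_left_cancel₀ ha hxy
      rw [← Finset.sum_image (f := fun b => ‖S b‖ ^ 2) (g := fun x => a * x) hinj]
      exact Finset.sum_le_sum_of_subset_of_nonneg (Finset.subset_univ _)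
        fun _ _ _ => by positivity
    rw [Finset.sum_congr rfl (fun g hg => by rw [hinv g hg a]), Finset.sum_const, hpars',
      nsmul_eq_mul] at h1
    have hT : (0 : ℝ) < T.card := by exact_mod_cast hTpos
    rw [mul_comm (Fintype.card K : ℝ)] at h1
    exact le_of_mul_le_mul_left h1 hT
  -- the number of solutions
  have hzero : ∑ a : K, (S a * (starRingEnd ℂ) (S a)) * (starRingEnd ℂ) (S (a * c)) = 0 := by
    have : ∀ a : K, (S a * (starRingEnd ℂ) (S a)) * (starRingEnd ℂ) (S (a * c))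
        = ∑ x ∈ T, ∑ y ∈ T, ∑ z ∈ T, ψ (a * (x - y - c * z)) := by
      intro a
      rw [hconj, hconj, Finset.sum_mul_sum, Finset.sum_mul]
      refine Finset.sum_congr rfl fun x _ => ?_
      rw [Finset.sum_mul]
      refine Finset.sum_congr rfl fun y _ => ?_
      rw [Finset.mul_sum]
      refine Finset.sum_congr rfl fun z _ => ?_
      rw [← AddChar.map_add_eq_mul, ← AddChar.map_add_eq_mul]
      congr 1; ring
    simp only [this]
    rw [Finset.sum_comm]
    refine Finset.sum_eq_zero fun x hx => ?_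
    rw [Finset.sum_comm]
    refine Finset.sum_eq_zero fun y hy => ?_
    rw [Finset.sum_comm]
    refine Finset.sum_eq_zero fun z hz => ?_
    rw [hsum, if_neg]
    exact sub_ne_zero.2 (hcon x hx y hy z hz)
  rw [← Finset.add_sum_erase _ _ (Finset.mem_univ (0 : K))] at hzero
  have hS0 : S 0 = T.card := by simp [S]
  have h3 : ((T.card : ℂ)) ^ 3 = - ∑ a ∈ Finset.univ.erase (0 : K),
      (S a * (starRingEnd ℂ) (S a)) * (starRingEnd ℂ) (S (a * c)) := by
    rw [zero_mul, hS0] at hzero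
    rw [Complex.conj_natCast] at hzero
    rw [eq_neg_iff_add_eq_zero, ← hzero]
    ring
  have h4 : (T.card : ℝ) ^ 3 ≤ ∑ a ∈ Finset.univ.erase (0 : K),
      ‖S a‖ ^ 2 * Real.sqrt (Fintype.card K) := by
    have : ‖((T.card : ℂ)) ^ 3‖ = (T.card : ℝ) ^ 3 := by simp
    rw [← this, h3, norm_neg]
    refine (norm_sum_le _ _).trans (Finset.sum_le_sum fun a ha => ?_)
    have ha0 : a ≠ 0 := Finset.ne_of_mem_erase ha
    rw [hnorm, norm_mul, RCLike.norm_conj]
    have e1 : ‖((‖S a‖ ^ 2 : ℝ) : ℂ)‖ = ‖S a‖ ^ 2 := by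
      rw [Complex.norm_real, Real.norm_of_nonneg (by positivity)]
    rw [e1]
    refine mul_le_mul_of_nonneg_left ?_ (by positivity)
    apply Real.le_sqrt_of_sq_le
    exact hbound _ (mul_ne_zero ha0 hc)
  have h5 : (T.card : ℝ) ^ 3 ≤ (Fintype.card K * T.card) * Real.sqrt (Fintype.card K) := by
    refine h4.trans ?_
    rw [← Finset.sum_mul, ← hpars']
    refine mul_le_mul_of_nonneg_right ?_ (Real.sqrt_nonneg _)
    exact Finset.sum_le_sum_of_subset_of_nonneg (Finset.subset_univ _)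
        fun _ _ _ => by positivity
  have hT : (0 : ℝ) < T.card := by exact_mod_cast hTpos
  have h6 : (T.card : ℝ) ^ 2 ≤ Fintype.card K * Real.sqrt (Fintype.card K) := by
    have : (T.card : ℝ) * (T.card : ℝ) ^ 2 ≤ (T.card : ℝ) *
        (Fintype.card K * Real.sqrt (Fintype.card K)) := by nlinarith [h5]
    exact le_of_mul_le_mul_left this hT
  have h7 : (T.card : ℝ) ^ 4 ≤ (Fintype.card K : ℝ) ^ 3 := by
    have h8 : ((T.card : ℝ) ^ 2) ^ 2 ≤ (Fintype.card K * Real.sqrt (Fintype.card K)) ^ 2 :=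
      pow_le_pow_left₀ (by positivity) h6 2
    rw [mul_pow, Real.sq_sqrt (by positivity)] at h8
    calc (T.card : ℝ) ^ 4 = ((T.card : ℝ) ^ 2) ^ 2 := by ring
      _ ≤ _ := h8
      _ = _ := by ring
  have : T.card ^ 4 ≤ Fintype.card K ^ 3 := by exact_mod_cast h7
  omega

theorem diff_finite {K : Type} [Field K] [Fintype K] (G : Subgroup Kˣ)
    (hq : 16 * G.index ^ 4 < Fintype.card K) (c : K) (hc : c ≠ 0) :
    ∃ x ∈ G, ∃ y ∈ G, ∃ z ∈ G, (x : K) - (y : K) = c * (z : K) := by
  classical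
  let T : Finset K := (Finset.univ.filter (fun u : Kˣ => u ∈ G)).image (Units.val : Kˣ → K)
  have hT : ∀ x, x ∈ T ↔ ∃ u ∈ G, (u : K) = x := by
    intro x; simp [T]
  have hcardT : T.card = Nat.card G := by
    rw [Finset.card_image_of_injective _ Units.val_injective, Nat.card_eq_fintype_card,
      Fintype.card_subtype]
  have hidx : Nat.card G * G.index = Fintype.card K - 1 := by
    rw [Subgroup.card_mul_index, Nat.card_eq_fintype_card, Fintype.card_units]
  have hq2 : 2 ≤ Fintype.card K := Fintype.one_lt_card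
  have key := diff_finset T ?_ ?_ ?_ c hc
  · obtain ⟨x', hx', y', hy', z', hz', h⟩ := key
    obtain ⟨x, hx, rfl⟩ := (hT _).1 hx'
    obtain ⟨y, hy, rfl⟩ := (hT _).1 hy'
    obtain ⟨z, hz, rfl⟩ := (hT _).1 hz'
    exact ⟨x, hx, y, hy, z, hz, h⟩
  · intro h
    obtain ⟨u, _, hu⟩ := (hT _).1 h
    exact u.ne_zero hu
  · intro g hg
    obtain ⟨u, hu, rfl⟩ := (hT _).1 hg
    ext x
    rw [Finset.mem_image]
    constructor
    · rintro ⟨y, hy, rfl⟩
      obtain ⟨v, hv, rfl⟩ := (hT _).1 hy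
      exact (hT _).2 ⟨u * v, G.mul_mem hu hv, by simp⟩
    · intro hx
      obtain ⟨v, hv, rfl⟩ := (hT _).1 hx
      exact ⟨((u⁻¹ * v : Kˣ) : K), (hT _).2 ⟨_, G.mul_mem (G.inv_mem hu) hv, rfl⟩, by
        rw [← Units.val_mul]; simp⟩
  · rw [hcardT]
    set n := Nat.card G
    set r := G.index
    set q := Fintype.card K
    by_contra hlt
    push Not at hlt
    have h1 : (q - 1) ^ 4 ≤ q ^ 3 * r ^ 4 := by
      rw [← hidx, mul_pow]
      exact Nat.mul_le_mul_right _ hlt
    have h2 : 16 * (q - 1) ^ 4 < q ^ 4 := by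
      calc 16 * (q - 1) ^ 4 ≤ 16 * (q ^ 3 * r ^ 4) := Nat.mul_le_mul_left _ h1
        _ = q ^ 3 * (16 * r ^ 4) := by ring
        _ < q ^ 3 * q := Nat.mul_lt_mul_of_pos_left hq (by positivity)
        _ = q ^ 4 := by ring
    have h3 : q ≤ 2 * (q - 1) := by omega
    have h4 : q ^ 4 ≤ (2 * (q - 1)) ^ 4 := Nat.pow_le_pow_left h3 4
    have h5 : (2 * (q - 1)) ^ 4 = 16 * (q - 1) ^ 4 := by rw [mul_pow]; norm_num
    omega

end Pool.Agent.W360.HF
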