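import Pool.Agent.W360.HF.Omega

set_option autoImplicit false

/-!
# Most sets of triples are generic
-/

namespace Pool.Agent.W360.HF

variable {A : Type} [CommGroup A] [Fintype A]

/-- Generic sets of (classes of) triples. -/
def Gen (R : Om A → Bool) : Prop := ∀ a b c d : A, ∃ x, R (cl a b x) = true ∧ R (cl c d x) = true

noncomputable instance : DecidablePred (Gen (A := A)) := Classical.decPred _

theorem bad_card (a b c d : A) :
    4 ^ (Fintype.card A / 24) * ((Finset.univ : Finset (Om A → Bool)).filter
      (fun R => ∀ x, ¬ (R (cl a b x) = true ∧ R (cl c d x) = true))).card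
      ≤ 3 ^ (Fintype.card A / 24) * 2 ^ Fintype.card (Om A) := by
  classical
  obtain ⟨X, hX, hcard⟩ := exists_indep (fun x => cl a b x) (fun x => cl c d x) 6
    (fiber_card a b) (fiber_card c d)
  obtain ⟨Y, hYX, hY⟩ := Finset.exists_subset_card_eq
    (show Fintype.card A / 24 ≤ X.card by omega)
  have h := count_bad (fun x => cl a b x) (fun x => cl c d x) Y
    (fun x hx y hy => hX x (hYX hx) y (hYX hy))
  rw [hY] at h
  refine le_trans (Nat.mul_le_mul_left _ (Finset.card_le_card ?_)) h
  intro R hR
  simp only [Finset.mem_filter, Finset.mem_univ, true_and] at hR ⊢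
  exact fun x _ => hR x

theorem gen_half (h : 2 * Fintype.card A ^ 4 * 3 ^ (Fintype.card A / 24)
      ≤ 4 ^ (Fintype.card A / 24)) :
    2 ^ Fintype.card (Om A) ≤ 2 * ((Finset.univ : Finset (Om A → Bool)).filter Gen).card := by
  classical
  set m := Fintype.card A / 24
  set B := (Finset.univ : Finset (Om A → Bool)).filter (fun R => ¬ Gen R) with hB
  have htot : ((Finset.univ : Finset (Om A → Bool)).filter Gen).card + B.card
      = 2 ^ Fintype.card (Om A) := by
    rw [hB, Finset.card_filter_add_card_filter_not, Finset.card_univ, Fintype.card_fun,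
      Fintype.card_bool]
  have hBle : 4 ^ m * B.card ≤ Fintype.card A ^ 4 * (3 ^ m * 2 ^ Fintype.card (Om A)) := by
    have hsub : B ⊆ (Finset.univ : Finset (A × A × A × A)).biUnion (fun p =>
        (Finset.univ : Finset (Om A → Bool)).filter
          (fun R => ∀ x, ¬ (R (cl p.1 p.2.1 x) = true ∧ R (cl p.2.2.1 p.2.2.2 x) = true))) := by
      intro R hR
      rw [hB, Finset.mem_filter] at hR
      have h2 := hR.2
      unfold Gen at h2
      push Not at h2
      obtain ⟨a, b, c, d, h3⟩ := h2
      rw [Finset.mem_biUnion]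
      refine ⟨(a, b, c, d), Finset.mem_univ _, ?_⟩
      simp only [Finset.mem_filter, Finset.mem_univ, true_and]
      intro x hx
      exact h3 x hx.1 hx.2
    calc 4 ^ m * B.card ≤ 4 ^ m * ∑ p : A × A × A × A,
          ((Finset.univ : Finset (Om A → Bool)).filter
            (fun R => ∀ x, ¬ (R (cl p.1 p.2.1 x) = true ∧ R (cl p.2.2.1 p.2.2.2 x) = true))).card :=
          Nat.mul_le_mul_left _ ((Finset.card_le_card hsub).trans Finset.card_biUnion_le)
      _ = ∑ p : A × A × A × A, 4 ^ m *
          ((Finset.univ : Finset (Om A → Bool)).filter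
            (fun R => ∀ x, ¬ (R (cl p.1 p.2.1 x) = true ∧ R (cl p.2.2.1 p.2.2.2 x) = true))).card :=
          Finset.mul_sum _ _ _
      _ ≤ ∑ p : A × A × A × A, 3 ^ m * 2 ^ Fintype.card (Om A) :=
          Finset.sum_le_sum fun p _ => bad_card _ _ _ _
      _ = Fintype.card A ^ 4 * (3 ^ m * 2 ^ Fintype.card (Om A)) := by
          rw [Finset.sum_const, Finset.card_univ, smul_eq_mul]
          congr 1
          simp only [Fintype.card_prod]
          ring
  have h2 : 4 ^ m * (2 * B.card) ≤ 4 ^ m * 2 ^ Fintype.card (Om A) := by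
    calc 4 ^ m * (2 * B.card) = 2 * (4 ^ m * B.card) := by ring
      _ ≤ 2 * (Fintype.card A ^ 4 * (3 ^ m * 2 ^ Fintype.card (Om A))) :=
          Nat.mul_le_mul_left _ hBle
      _ = (2 * Fintype.card A ^ 4 * 3 ^ m) * 2 ^ Fintype.card (Om A) := by ring
      _ ≤ 4 ^ m * 2 ^ Fintype.card (Om A) := Nat.mul_le_mul_right _ h
  have h3 : 2 * B.card ≤ 2 ^ Fintype.card (Om A) :=
    Nat.le_of_mul_le_mul_left h2 (by positivity)
  omega

/-- The classes `[1, ε, z]`. -/
noncomputable def R0 (e : A) : Finset (Om A) := by
  classical exact Finset.univ.image (fun z => cl 1 e z)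

theorem R0_card (e : A) : Fintype.card A ≤ 6 * (R0 e).card := by
  classical
  unfold R0
  rw [← Finset.card_univ]
  exact Finset.card_le_mul_card_image _ _ fun w _ => fiber_card 1 e w

theorem mem_R0 (e z : A) : cl 1 e z ∈ R0 e := by
  classical
  unfold R0
  exact Finset.mem_image_of_mem _ (Finset.mem_univ z)

/-- number of pairs `(ε, R)` with `R` true on `R0 ε` -/
theorem forced_count :
    ((Finset.univ : Finset (A × (Om A → Bool))).filter
      (fun p => ∀ w ∈ R0 p.1, p.2 w = true)).card * 2 ^ (Fintype.card A / 6)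
      ≤ Fintype.card A * 2 ^ Fintype.card (Om A) := by
  classical
  have h1 : ((Finset.univ : Finset (A × (Om A → Bool))).filter
      (fun p => ∀ w ∈ R0 p.1, p.2 w = true)).card
      = ∑ e : A, ((Finset.univ : Finset (Om A → Bool)).filter
        (fun R => ∀ w ∈ R0 e, R w = true)).card := by
    rw [Finset.card_filter, Fintype.sum_prod_type]
    refine Finset.sum_congr rfl fun e _ => ?_
    rw [Finset.card_filter]
  rw [h1, Finset.sum_mul]
  calc ∑ e : A, ((Finset.univ : Finset (Om A → Bool)).filter
        (fun R => ∀ w ∈ R0 e, R w = true)).card * 2 ^ (Fintype.card A / 6)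
      ≤ ∑ e : A, ((Finset.univ : Finset (Om A → Bool)).filter
        (fun R => ∀ w ∈ R0 e, R w = true)).card * 2 ^ (R0 e).card := by
        refine Finset.sum_le_sum fun e _ => Nat.mul_le_mul_left _ ?_
        refine Nat.pow_le_pow_right (by norm_num) ?_
        have := R0_card e
        omega
    _ = ∑ e : A, 2 ^ Fintype.card (Om A) := Finset.sum_congr rfl fun e _ => count_forced _
    _ = Fintype.card A * 2 ^ Fintype.card (Om A) := by
        rw [Finset.sum_const, Finset.card_univ, smul_eq_mul]

theorem om_card (e : A) : Fintype.card A / 6 ≤ Fintype.card (Om A) := by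
  have := R0_card e
  have h2 := Finset.card_le_univ (R0 e)
  omega

end Pool.Agent.W360.HF
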