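import Mathlib

set_option autoImplicit false

/-!
# Differences of a multiplicative subgroup of finite index in an infinite field
-/

namespace Pool.Agent.W360.HF

open Finset

/-- end-homogeneous sequences -/
theorem end_homog {K κ : Type} [Finite κ] (χ : K → K → κ) (n : ℕ) :
    ∀ S : Set K, S.Infinite → ∃ (x : ℕ → K) (a : ℕ → κ), (∀ i < n, x i ∈ S) ∧
      ∀ i j, i < j → j < n → x i ≠ x j ∧ χ (x i) (x j) = a i := by
  induction n with
  | zero =>
    intro S hS
    obtain ⟨s, _⟩ := hS.nonempty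
    exact ⟨fun _ => s, fun _ => χ s s, fun i hi => absurd hi (Nat.not_lt_zero _),
      fun i j _ hj => absurd hj (Nat.not_lt_zero _)⟩
  | succ n ih =>
    intro S hS
    obtain ⟨s, hs⟩ := hS.nonempty
    have hS' : (S \ {s}).Infinite := hS.sdiff (Set.finite_singleton s)
    have : Infinite ↥(S \ {s}) := hS'.to_subtype
    obtain ⟨b, hb⟩ := Finite.exists_infinite_fiber (fun t : ↥(S \ {s}) => χ s t)
    let S1 : Set K := Subtype.val '' ((fun t : ↥(S \ {s}) => χ s t) ⁻¹' {b})
    have hS1 : S1.Infinite := by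
      apply Set.Infinite.image (Subtype.val_injective.injOn)
      exact Set.infinite_coe_iff.1 hb
    obtain ⟨x, a, hx, ha⟩ := ih S1 hS1
    have hmem : ∀ i < n, x i ∈ S ∧ x i ≠ s ∧ χ s (x i) = b := by
      intro i hi
      obtain ⟨t, ht, hti⟩ := hx i hi
      rw [← hti]
      exact ⟨t.2.1, t.2.2, ht⟩
    refine ⟨fun i => Nat.casesOn i s x, fun i => Nat.casesOn i b a, ?_, ?_⟩
    · intro i hi
      cases i with
      | zero => exact hs
      | succ i => exact (hmem i (by omega)).1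
    · intro i j hij hj
      cases j with
      | zero => exact absurd hij (Nat.not_lt_zero _)
      | succ j =>
        cases i with
        | zero =>
          obtain ⟨_, h2, h3⟩ := hmem j (by omega)
          exact ⟨fun h => h2 h.symm, h3⟩
        | succ i => exact ha i j (by omega) (by omega)

/-- homogeneous finite sets -/
theorem homog {K κ : Type} [Infinite K] [Finite κ] (χ : K → K → κ) (N : ℕ) :
    ∃ (x : ℕ → K) (b : κ) (I : Finset ℕ), N < I.card ∧
      ∀ i ∈ I, ∀ j ∈ I, i < j → x i ≠ x j ∧ χ (x i) (x j) = b := by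
  classical
  have := Fintype.ofFinite κ
  obtain ⟨x, a, -, ha⟩ := end_homog χ (Fintype.card κ * N + 1) Set.univ Set.infinite_univ
  obtain ⟨b, -, hb⟩ := Finset.exists_lt_card_fiber_of_mul_lt_card_of_maps_to
    (s := Finset.range (Fintype.card κ * N + 1)) (t := (Finset.univ : Finset κ)) (f := a) (n := N)
    (fun i _ => Finset.mem_univ _) (by rw [Finset.card_range, Finset.card_univ]; omega)
  refine ⟨x, b, _, hb, ?_⟩
  intro i hi j hj hij
  rw [Finset.mem_filter, Finset.mem_range] at hi hj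
  have := ha i j hij hj.1
  exact ⟨this.1, this.2.trans hi.2⟩

/-- Finite subsets of an infinite abelian group that grow by at most a factor `2` when
translates by a given finite set are added. -/
theorem folner {K : Type} [AddCommGroup K] [Infinite K] [DecidableEq K] (T0 : Finset K) :
    ∃ F F' : Finset K, 2 < F.card ∧ F'.card ≤ 2 * F.card ∧ ∀ t ∈ T0, ∀ f ∈ F, f + t ∈ F' := by
  obtain ⟨E, hE⟩ := Infinite.exists_subset_card_eq K 3
  let T : Finset K := T0 ∪ E
  have hT3 : 3 ≤ T.card := by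
    rw [← hE]; exact Finset.card_le_card Finset.subset_union_right
  let F : ℕ → Finset K := fun M =>
    (Fintype.piFinset (fun _ : T => Finset.range (M + 1))).image (fun n => ∑ t : T, n t • (t : K))
  have hF : ∀ M x, x ∈ F M ↔ ∃ n : T → ℕ, (∀ t, n t ≤ M) ∧ ∑ t : T, n t • (t : K) = x := by
    intro M x
    simp only [F, Finset.mem_image, Fintype.mem_piFinset, Finset.mem_range]
    constructor
    · rintro ⟨n, h1, h2⟩; exact ⟨n, fun t => Nat.lt_succ_iff.1 (h1 t), h2⟩
    · rintro ⟨n, h1, h2⟩; exact ⟨n, fun t => Nat.lt_succ_iff.2 (h1 t), h2⟩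
  have hmono : ∀ M, F M ⊆ F (M + 1) := by
    intro M x hx
    obtain ⟨n, h1, h2⟩ := (hF _ _).1 hx
    exact (hF _ _).2 ⟨n, fun t => (h1 t).trans (Nat.le_succ _), h2⟩
  have hstep : ∀ M, ∀ t ∈ T, ∀ f ∈ F M, f + t ∈ F (M + 1) := by
    intro M t ht f hf
    obtain ⟨n, h1, h2⟩ := (hF _ _).1 hf
    refine (hF _ _).2 ⟨fun s => n s + if s = ⟨t, ht⟩ then 1 else 0, fun s => ?_, ?_⟩
    · have := h1 s
      dsimp only; split_ifs <;> omega
    · simp only [add_smul, Finset.sum_add_distrib, h2, ite_smul, one_smul, zero_smul,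
        Finset.sum_ite_eq', Finset.mem_univ, if_true]
  have hbound : ∀ M, (F M).card ≤ (M + 1) ^ T.card := by
    intro M
    refine Finset.card_image_le.trans ?_
    rw [Fintype.card_piFinset]
    simp
  have hF1 : ∀ M, 1 ≤ M → 3 ≤ (F M).card := by
    intro M hM
    refine hT3.trans (Finset.card_le_card ?_)
    intro t ht
    refine (hF _ _).2 ⟨fun s => if s = ⟨t, ht⟩ then 1 else 0, fun s => ?_, ?_⟩
    · dsimp only; split_ifs <;> omega
    · simp
  obtain ⟨M, hM1, hM⟩ : ∃ M, 1 ≤ M ∧ (F (M + 1)).card ≤ 2 * (F M).card := by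
    by_contra hcon
    push Not at hcon
    have hgrow : ∀ M, 2 ^ M ≤ (F (M + 1)).card := by
      intro M
      induction M with
      | zero =>
        have h3 : 3 ≤ (F (0 + 1)).card := hF1 _ le_rfl
        rw [pow_zero]; omega
      | succ M ih =>
        have := hcon (M + 1) (by omega)
        rw [pow_succ]; omega
    have hlim := tendsto_pow_const_div_const_pow_of_one_lt T.card (r := 2) one_lt_two
    have h4 := (hlim.comp (Filter.tendsto_add_atTop_nat 2)).eventually_lt_const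
      (show (0 : ℝ) < 1 / 4 by norm_num)
    obtain ⟨M, hM⟩ := h4.exists
    simp only [Function.comp] at hM
    have h5 : (2 : ℝ) ^ M ≤ ((M + 2 : ℕ) : ℝ) ^ T.card := by
      have := (hgrow M).trans (hbound (M + 1))
      have h6 : ((2 ^ M : ℕ) : ℝ) ≤ (((M + 1 + 1) ^ T.card : ℕ) : ℝ) := by exact_mod_cast this
      push_cast at h6 ⊢
      calc (2 : ℝ) ^ M ≤ ((M : ℝ) + 1 + 1) ^ T.card := h6
        _ = _ := by congr 1; ring
    rw [div_lt_iff₀ (by positivity)] at hM
    have h7 : (1 / 4 : ℝ) * 2 ^ (M + 2) = 2 ^ M := by rw [pow_add]; ring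
    rw [h7] at hM
    exact absurd h5 (not_le.2 hM)
  refine ⟨F M, F (M + 1), ?_, hM, ?_⟩
  · have := hF1 M hM1; omega
  · intro t ht f hf
    exact hstep M t (Finset.mem_union_left _ ht) f hf

theorem diff_infinite {K : Type} [Field K] [Infinite K] (G : Subgroup Kˣ) (hr : G.index ≠ 0)
    (c : K) :
    ∃ x ∈ G, ∃ y ∈ G, ∃ z ∈ G, (x : K) - (y : K) = c * (z : K) := by
  classical
  have : G.FiniteIndex := ⟨hr⟩
  have : Finite (Kˣ ⧸ G) := inferInstance
  have : Fintype (Kˣ ⧸ G) := Fintype.ofFinite _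
  let col : K → Kˣ ⧸ G := fun d => if h : d = 0 then ((1 : Kˣ) : Kˣ ⧸ G) else
    ((Units.mk0 d h : Kˣ) : Kˣ ⧸ G)
  have hcol : ∀ (u : Kˣ), col (u : K) = (u : Kˣ ⧸ G) := by
    intro u
    simp only [col]
    rw [dif_neg u.ne_zero]
    congr 1
    ext; rfl
  obtain ⟨x, b, I, hI, hIx⟩ := homog (fun s t : K => col (s - t)) (4 * Fintype.card (Kˣ ⧸ G))
  obtain ⟨u, rfl⟩ := QuotientGroup.mk_surjective b
  have hg : ∀ i ∈ I, ∀ j ∈ I, i < j → ∃ g ∈ G, x i - x j = (u : K) * (g : K) := by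
    intro i hi j hj hij
    obtain ⟨h1, h2⟩ := hIx i hi j hj hij
    have h3 : x i - x j ≠ 0 := sub_ne_zero.2 h1
    have h4 : col (x i - x j) = ((Units.mk0 _ h3 : Kˣ) : Kˣ ⧸ G) := by
      have := hcol (Units.mk0 _ h3)
      simpa using this
    have h5 : ((u : Kˣ) : Kˣ ⧸ G) = ((Units.mk0 _ h3 : Kˣ) : Kˣ ⧸ G) := by
      rw [← h4]; exact h2.symm
    refine ⟨u⁻¹ * Units.mk0 _ h3, QuotientGroup.eq.1 h5, ?_⟩
    rw [Units.val_mul, ← mul_assoc]
    simp
  let ρ : Kˣ ⧸ G → Kˣ := fun q => q.out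
  have hρ : ∀ q : Kˣ ⧸ G, ((ρ q : Kˣ) : Kˣ ⧸ G) = q := fun q => QuotientGroup.out_eq' q
  let t : (Kˣ ⧸ G) → ℕ → K := fun q i => (ρ q : K) * c * ((u⁻¹ : Kˣ) : K) * x i
  obtain ⟨F, F', hF3, hFF, hF⟩ := folner (K := K)
    ((Finset.univ : Finset (Kˣ ⧸ G)).biUnion fun q => I.image (t q))
  -- a coset that is frequent in F
  have hmaps : ∀ f ∈ F.erase 0, col f ∈ (Finset.univ : Finset (Kˣ ⧸ G)) := fun _ _ =>
    Finset.mem_univ _
  obtain ⟨q, -, hq⟩ : ∃ q ∈ (Finset.univ : Finset (Kˣ ⧸ G)),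
      F.card ≤ 2 * Fintype.card (Kˣ ⧸ G) * ((F.erase 0).filter (fun f => col f = q)).card := by
    by_contra hcon
    push Not at hcon
    have h1 : (F.erase 0).card = ∑ q ∈ (Finset.univ : Finset (Kˣ ⧸ G)),
        ((F.erase 0).filter (fun f => col f = q)).card :=
      Finset.card_eq_sum_card_fiberwise hmaps
    have h2 : F.card ≤ (F.erase 0).card + 1 := by
      have := Finset.pred_card_le_card_erase (s := F) (a := (0 : K)); omega
    have h3 : Fintype.card (Kˣ ⧸ G) * F.card ≥ Fintype.card (Kˣ ⧸ G) * 3 :=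
      Nat.mul_le_mul_left _ (by omega)
    have h4 : 0 < Fintype.card (Kˣ ⧸ G) := Fintype.card_pos
    have h5 : ∑ q ∈ (Finset.univ : Finset (Kˣ ⧸ G)),
        2 * Fintype.card (Kˣ ⧸ G) * ((F.erase 0).filter (fun f => col f = q)).card
        ≤ ∑ q ∈ (Finset.univ : Finset (Kˣ ⧸ G)), F.card :=
      Finset.sum_le_sum fun q hq => (hcon q hq).le
    rw [← Finset.mul_sum, ← h1, Finset.sum_const, Finset.card_univ, smul_eq_mul] at h5
    have h6 : 2 * (F.erase 0).card ≤ F.card := by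
      have : Fintype.card (Kˣ ⧸ G) * (2 * (F.erase 0).card) ≤ Fintype.card (Kˣ ⧸ G) * F.card := by
        calc _ = 2 * Fintype.card (Kˣ ⧸ G) * (F.erase 0).card := by ring
          _ ≤ _ := h5
      exact Nat.le_of_mul_le_mul_left this h4
    omega
  set Fq := (F.erase 0).filter (fun f => col f = q) with hFq
  have hFqmem : ∀ f ∈ Fq, ∃ g ∈ G, f = (ρ q : K) * (g : K) := by
    intro f hf
    rw [hFq, Finset.mem_filter, Finset.mem_erase] at hf
    have h4 : col f = ((Units.mk0 _ hf.1.1 : Kˣ) : Kˣ ⧸ G) := by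
      have := hcol (Units.mk0 _ hf.1.1)
      simpa using this
    have h5 : ((ρ q : Kˣ) : Kˣ ⧸ G) = ((Units.mk0 _ hf.1.1 : Kˣ) : Kˣ ⧸ G) := by
      rw [hρ, ← h4]; exact hf.2.symm
    refine ⟨(ρ q)⁻¹ * Units.mk0 _ hf.1.1, QuotientGroup.eq.1 h5, ?_⟩
    rw [Units.val_mul, ← mul_assoc]
    simp
  -- two translates meet
  have hmeet : ∃ i ∈ I, ∃ j ∈ I, i ≠ j ∧ ∃ f ∈ Fq, ∃ f' ∈ Fq, f + t q i = f' + t q j := by
    by_contra hcon
    push Not at hcon
    have hcard : (I ×ˢ Fq).card ≤ F'.card := by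
      refine Finset.card_le_card_of_injOn (fun p => p.2 + t q p.1) ?_ ?_
      · rintro ⟨i, f⟩ hp
        simp only [Finset.coe_product, Set.mem_prod, Finset.mem_coe] at hp
        refine hF (t q i) ?_ f ?_
        · rw [Finset.mem_biUnion]
          exact ⟨q, Finset.mem_univ _, Finset.mem_image_of_mem _ hp.1⟩
        · have := hp.2
          rw [hFq, Finset.mem_filter] at this
          exact Finset.mem_of_mem_erase this.1
      · rintro ⟨i, f⟩ hp ⟨j, f'⟩ hp' h
        simp only [Finset.coe_product, Set.mem_prod, Finset.mem_coe] at hp hp'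
        dsimp only at h
        by_cases hij : i = j
        · subst hij
          rw [add_right_cancel h]
        · exact absurd h (hcon i hp.1 j hp'.1 hij f hp.2 f' hp'.2)
    rw [Finset.card_product] at hcard
    have h1 : (4 * Fintype.card (Kˣ ⧸ G) + 1) * Fq.card ≤ I.card * Fq.card :=
      Nat.mul_le_mul_right _ hI
    have h2 : 2 * (2 * Fintype.card (Kˣ ⧸ G) * Fq.card) + Fq.card ≤ 2 * F.card := by
      calc _ = (4 * Fintype.card (Kˣ ⧸ G) + 1) * Fq.card := by ring
        _ ≤ _ := h1.trans (hcard.trans hFF)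
    have h3 : 0 < Fq.card := by
      rcases Nat.eq_zero_or_pos Fq.card with h | h
      · rw [h] at hq; omega
      · exact h
    omega
  obtain ⟨i, hi, j, hj, hij, f, hf, f', hf', hmt⟩ := hmeet
  obtain ⟨g, hgG, rfl⟩ := hFqmem f hf
  obtain ⟨g', hgG', rfl⟩ := hFqmem f' hf'
  have hρ0 : (ρ q : K) ≠ 0 := (ρ q).ne_zero
  -- general conclusion
  have concl : ∀ i j (g g' : Kˣ), i ∈ I → j ∈ I → g ∈ G → g' ∈ G → i < j →
      (ρ q : K) * (g : K) + t q i = (ρ q : K) * (g' : K) + t q j →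
      ∃ x ∈ G, ∃ y ∈ G, ∃ z ∈ G, (x : K) - (y : K) = c * (z : K) := by
    intro i j g g' hi hj hgG hgG' hij h
    obtain ⟨z, hz, hz'⟩ := hg i hi j hj hij
    refine ⟨g', hgG', g, hgG, z, hz, ?_⟩
    have h1 : (ρ q : K) * ((g' : K) - (g : K)) = (ρ q : K) * (c * ((u⁻¹ : Kˣ) : K) * (x i - x j)) := by
      simp only [t] at h
      linear_combination -h
    have h2 := mul_left_cancel₀ hρ0 h1
    rw [h2, hz']
    have : ((u⁻¹ : Kˣ) : K) * (u : K) = 1 := by simp
    linear_combination c * (z : K) * this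
  rcases lt_or_gt_of_ne hij with h | h
  · exact concl i j g g' hi hj hgG hgG' h hmt
  · exact concl j i g' g hj hi hgG' hgG h hmt.symm

end Pool.Agent.W360.HF
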