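import Pool.Agent.W360.HF.Struct

set_option autoImplicit false

/-!
# Generic sets of triples give hyperfields; quotients of big fields give special sets of triples
-/

namespace Pool.Agent.W360.HF

variable {r : ℕ} {m : Fin (r+1) → Fin (r+1) → Fin (r+1)} {A : Type} [CommGroup A]

/-- the hyperaddition of a set of triples -/
def hadd (P : Pres r m A) (R : Om A → Bool) (x y : Fin (r+1)) : Set (Fin (r+1)) :=
  {z | (x = 0 ∧ z = y) ∨ (y = 0 ∧ z = x) ∨ (x ≠ 0 ∧ x = y ∧ z = 0) ∨
    ∃ a b c, P.i a = x ∧ P.i b = y ∧ P.i c = z ∧ R (cl a b c) = true}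

theorem hadd_zero (P : Pres r m A) (R : Om A → Bool) (y : Fin (r+1)) : hadd P R 0 y = {y} := by
  ext z
  rw [Set.mem_singleton_iff]
  constructor
  · rintro (h | h | h | ⟨a, b, c, h, _⟩)
    · exact h.2
    · rw [h.1, h.2]
    · exact absurd rfl h.1
    · exact absurd h (P.ne a)
  · intro hz; exact Or.inl ⟨rfl, hz⟩

theorem hadd_comm (P : Pres r m A) (R : Om A → Bool) (x y : Fin (r+1)) :
    hadd P R x y = hadd P R y x := by
  have : ∀ x y z, z ∈ hadd P R x y → z ∈ hadd P R y x := by
    intro x y z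
    rintro (h | h | h | ⟨a, b, c, h1, h2, h3, h4⟩)
    · exact Or.inr (Or.inl h)
    · exact Or.inl h
    · exact Or.inr (Or.inr (Or.inl ⟨h.2.1 ▸ h.1, h.2.1.symm, h.2.2⟩))
    · exact Or.inr (Or.inr (Or.inr ⟨b, a, c, h2, h1, h3, by rw [cl_swap]; exact h4⟩))
  ext z; exact ⟨this x y z, this y x z⟩

theorem hadd_zero' (P : Pres r m A) (R : Om A → Bool) (y : Fin (r+1)) : hadd P R y 0 = {y} := by
  rw [hadd_comm, hadd_zero]

theorem mem_hadd (P : Pres r m A) (R : Om A → Bool) (a b c : A) :
    P.i c ∈ hadd P R (P.i a) (P.i b) ↔ R (cl a b c) = true := by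
  constructor
  · rintro (h | h | h | ⟨a', b', c', h1, h2, h3, h4⟩)
    · exact absurd h.1 (P.ne a)
    · exact absurd h.1 (P.ne b)
    · exact absurd h.2.2 (P.ne c)
    · rwa [P.inj h1, P.inj h2, P.inj h3] at h4
  · intro h; exact Or.inr (Or.inr (Or.inr ⟨a, b, c, rfl, rfl, rfl, h⟩))

theorem zero_mem_hadd (P : Pres r m A) (R : Om A → Bool) (a b : A) :
    0 ∈ hadd P R (P.i a) (P.i b) ↔ a = b := by
  constructor
  · rintro (h | h | h | ⟨a', b', c', h1, h2, h3, h4⟩)
    · exact absurd h.1 (P.ne a)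
    · exact absurd h.1 (P.ne b)
    · exact P.inj h.2.1
    · exact absurd h3 (P.ne c')
  · rintro rfl; exact Or.inr (Or.inr (Or.inl ⟨P.ne a, rfl, rfl⟩))

theorem Pres.cases (P : Pres r m A) (x : Fin (r+1)) : x = 0 ∨ ∃ a, P.i a = x := by
  by_cases h : x = 0
  · exact Or.inl h
  · exact Or.inr (P.surj x h)

theorem isH_hadd [Fintype A] (P : Pres r m A) (hm : IsM r m) (R : Om A → Bool) (hR : Gen R) :
    IsH r (m, hadd P R) := by
  have hm0 : ∀ a, m 0 a = 0 := hm.2.2.2.1
  have hm0' : ∀ a, m a 0 = 0 := fun a => by rw [hm.2.1, hm0]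
  refine ⟨hm.1, hm.2.1, hm.2.2.1, hm.2.2.2.1, hm.2.2.2.2.1, hm.2.2.2.2.2, ?_, ?_, ?_, ?_, ?_, ?_, ?_⟩
  · intro x y
    dsimp only
    rcases P.cases x with rfl | ⟨a, rfl⟩
    · rw [hadd_zero]; exact Set.singleton_nonempty _
    · rcases P.cases y with rfl | ⟨b, rfl⟩
      · rw [hadd_zero']; exact Set.singleton_nonempty _
      · obtain ⟨z, hz, _⟩ := hR a b a b
        exact ⟨P.i z, (mem_hadd P R a b z).2 hz⟩
  · intro x y; exact hadd_comm P R x y
  · intro x y w
    dsimp only
    rcases P.cases x with rfl | ⟨a, rfl⟩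
    · rw [hadd_zero]
      simp only [Set.mem_singleton_iff, Set.iUnion_iUnion_eq_left, hadd_zero]
      ext z; simp
    rcases P.cases y with rfl | ⟨b, rfl⟩
    · rw [hadd_zero', hadd_zero]; simp
    rcases P.cases w with rfl | ⟨c, rfl⟩
    · simp only [hadd_zero']
      simp
    ext z
    rw [Set.mem_iUnion₂, Set.mem_iUnion₂]
    rcases P.cases z with rfl | ⟨d, rfl⟩
    · constructor
      · rintro ⟨v, hv, hv'⟩
        rcases P.cases v with rfl | ⟨e, rfl⟩
        · rw [hadd_zero] at hv'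
          exact absurd hv' (fun h => P.ne c h.symm)
        · rw [zero_mem_hadd] at hv'
          subst hv'
          rw [mem_hadd] at hv
          refine ⟨P.i a, (mem_hadd P R b e a).2 (by rw [← cl_rot]; exact hv),
            (zero_mem_hadd P R a a).2 rfl⟩
      · rintro ⟨v, hv, hv'⟩
        rcases P.cases v with rfl | ⟨e, rfl⟩
        · rw [hadd_zero'] at hv'
          exact absurd hv' (fun h => P.ne a h.symm)
        · rw [zero_mem_hadd] at hv'
          subst hv'
          rw [mem_hadd] at hv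
          refine ⟨P.i c, (mem_hadd P R a b c).2 (by rw [cl_rot]; exact hv),
            (zero_mem_hadd P R c c).2 rfl⟩
    · constructor
      · intro _
        obtain ⟨x, h1, h2⟩ := hR b c a d
        exact ⟨P.i x, (mem_hadd P R b c x).2 h1, (mem_hadd P R a x d).2 (by
          rw [cl_swap']; exact h2)⟩
      · intro _
        obtain ⟨x, h1, h2⟩ := hR a b c d
        exact ⟨P.i x, (mem_hadd P R a b x).2 h1, (mem_hadd P R x c d).2 (by
          rw [cl_rot]; exact h2)⟩
  · intro x; exact hadd_zero P R x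
  · intro x
    dsimp only
    rcases P.cases x with rfl | ⟨a, rfl⟩
    · refine ⟨0, ?_, fun y hy => ?_⟩
      · show (0 : Fin (r+1)) ∈ hadd P R 0 0
        rw [hadd_zero]; rfl
      · have hy' : (0 : Fin (r+1)) ∈ hadd P R 0 y := hy
        rw [hadd_zero] at hy'
        exact hy'.symm
    · refine ⟨P.i a, (zero_mem_hadd P R a a).2 rfl, fun y hy => ?_⟩
      rcases P.cases y with rfl | ⟨b, rfl⟩
      · replace hy : (0 : Fin (r+1)) ∈ hadd P R (P.i a) 0 := hy
        rw [hadd_zero'] at hy
        exact absurd hy (fun h => P.ne a h.symm)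
      · have := (zero_mem_hadd P R a b).1 hy
        rw [this]
  · intro x y z w h1 h2
    dsimp only at h1 h2 ⊢
    rcases P.cases y with rfl | ⟨b, rfl⟩
    · rw [hadd_zero] at h1 h2
      rw [Set.mem_singleton_iff] at h1 h2
      rw [← h2, h1, hadd_zero']; rfl
    · rcases P.cases w with rfl | ⟨d, rfl⟩
      · rw [hadd_zero'] at h2
        exact absurd h2 (fun h => P.ne b h.symm)
      · have hbd := (zero_mem_hadd P R b d).1 h2
        subst hbd
        rcases P.cases z with rfl | ⟨c, rfl⟩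
        · rw [hadd_zero'] at h1
          rw [Set.mem_singleton_iff] at h1
          rw [h1, zero_mem_hadd]
        · rcases P.cases x with rfl | ⟨a, rfl⟩
          · have := (zero_mem_hadd P R b c).1 h1
            rw [this, hadd_zero]; rfl
          · rw [mem_hadd] at h1 ⊢
            rw [cl_rot]; exact h1
  · intro x y z
    dsimp only
    rcases P.cases x with rfl | ⟨a, rfl⟩
    · rw [hm0, hm0, hadd_zero]
      ext w
      constructor
      · rintro ⟨v, _, rfl⟩; dsimp only; rw [hm0]; rfl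
      · intro hw
        rw [Set.mem_singleton_iff] at hw
        have hne : (hadd P R y z).Nonempty := by
          rcases P.cases y with rfl | ⟨b, rfl⟩
          · rw [hadd_zero]; exact Set.singleton_nonempty _
          · rcases P.cases z with rfl | ⟨c, rfl⟩
            · rw [hadd_zero']; exact Set.singleton_nonempty _
            · obtain ⟨z, hz, _⟩ := hR b c b c
              exact ⟨P.i z, (mem_hadd P R b c z).2 hz⟩
        obtain ⟨v, hv⟩ := hne
        exact ⟨v, hv, by dsimp only; rw [hm0, hw]⟩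
    · rcases P.cases y with rfl | ⟨b, rfl⟩
      · rw [hm0', hadd_zero, hadd_zero]; simp
      · rcases P.cases z with rfl | ⟨c, rfl⟩
        · rw [hm0', hadd_zero', hadd_zero']; simp
        · rw [P.mul, P.mul]
          ext w
          constructor
          · rintro ⟨v, hv, rfl⟩
            rcases P.cases v with rfl | ⟨d, rfl⟩
            · have := (zero_mem_hadd P R b c).1 hv
              dsimp only
              rw [hm0', zero_mem_hadd, this]
            · dsimp only
              rw [P.mul, mem_hadd, cl_scale]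
              exact (mem_hadd P R b c d).1 hv
          · intro hw
            rcases P.cases w with rfl | ⟨d, rfl⟩
            · have := mul_left_cancel ((zero_mem_hadd P R _ _).1 hw)
              exact ⟨0, (zero_mem_hadd P R b c).2 this, hm0' _⟩
            · rw [mem_hadd] at hw
              refine ⟨P.i (a⁻¹ * d), ?_, ?_⟩
              · rw [mem_hadd, ← cl_scale a, mul_inv_cancel_left]; exact hw
              · dsimp only; rw [P.mul, mul_inv_cancel_left]

theorem hadd_injective (P : Pres r m A) : Function.Injective (hadd P) := by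
  intro R R' h
  funext w
  obtain ⟨a, b, c, rfl⟩ := cl_surj w
  have h1 := mem_hadd P R a b c
  rw [h, mem_hadd] at h1
  cases hR : R (cl a b c) <;> cases hR' : R' (cl a b c) <;> simp_all

/-- The special property of quotients of big fields. -/
def Big (r : ℕ) (p : Str r) : Prop :=
  ∃ u e : Fin (r+1), u ≠ 0 ∧ (∀ a, p.1 u a = a) ∧ (0 : Fin (r+1)) ∈ p.2 u e ∧ ∀ z, z ∈ p.2 u e

section upper

variable {h : Fin (r+1) → Fin (r+1) → Set (Fin (r+1))}

theorem exists_eps (P : Pres r m A) (hw : IsW r (m, h)) :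
    ∃ e : A, e * e = 1 ∧ (∀ a b, (0 : Fin (r+1)) ∈ h (P.i a) (P.i b) ↔ b = e * a) ∧
      (∀ t : Fin 3 → A, ∀ l, P.i (e * t 2) ∈ h (P.i (t 0)) (P.i (t 1)) ↔
        P.i (e * (l * t 2)) ∈ h (P.i (l * t 0)) (P.i (l * t 1))) ∧
      (∀ a b c, P.i (e * c) ∈ h (P.i a) (P.i b) → P.i (e * b) ∈ h (P.i a) (P.i c)) := by
  obtain ⟨hM, hcomm, hzero, huniq, hrev, hdist⟩ := hw
  dsimp only at hM hcomm hzero huniq hrev hdist
  have hm0 : ∀ a, m 0 a = 0 := hM.2.2.2.1
  have hm0' : ∀ a, m a 0 = 0 := fun a => by rw [hM.2.1, hm0]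
  have hzero' : ∀ a, h a 0 = {a} := fun a => by rw [hcomm, hzero]
  have hsc : ∀ a x y z, P.i z ∈ h (P.i x) (P.i y) ↔
      P.i (a * z) ∈ h (P.i (a * x)) (P.i (a * y)) := by
    intro a x y z
    rw [← P.mul, ← P.mul, ← P.mul, ← hdist]
    constructor
    · intro hz; exact ⟨_, hz, rfl⟩
    · rintro ⟨v, hv, hv'⟩
      dsimp only at hv'
      rcases P.cases v with rfl | ⟨d, rfl⟩
      · rw [hm0', P.mul] at hv'
        exact absurd hv'.symm (P.ne _)
      · rw [P.mul, P.mul] at hv'
        rwa [mul_left_cancel (P.inj hv')] at hv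
  have hsc0 : ∀ a x y, (0 : Fin (r+1)) ∈ h (P.i x) (P.i y) ↔
      (0 : Fin (r+1)) ∈ h (P.i (a * x)) (P.i (a * y)) := by
    intro a x y
    rw [← P.mul, ← P.mul, ← hdist]
    constructor
    · intro hz; exact ⟨_, hz, hm0' _⟩
    · rintro ⟨v, hv, hv'⟩
      dsimp only at hv'
      rcases P.cases v with rfl | ⟨d, rfl⟩
      · exact hv
      · rw [P.mul] at hv'
        exact absurd hv' (P.ne _)
  obtain ⟨y, hy, hyu⟩ := huniq (P.i 1)
  have hy0 : y ≠ 0 := by
    rintro rfl
    rw [hzero'] at hy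
    exact P.ne 1 hy.symm
  obtain ⟨e, rfl⟩ := P.surj y hy0
  have h0 : ∀ a b, (0 : Fin (r+1)) ∈ h (P.i a) (P.i b) ↔ b = e * a := by
    intro a b
    constructor
    · intro hab
      have := (hsc0 a⁻¹ a b).1 hab
      rw [inv_mul_cancel] at this
      have := P.inj (hyu _ this)
      rw [← this]
      rw [mul_comm, mul_inv_cancel_left]
    · rintro rfl
      have := (hsc0 a 1 e).1 hy
      rwa [mul_one, mul_comm a e] at this
  have hee : e * e = 1 := by
    have h1 : (0 : Fin (r+1)) ∈ h (P.i e) (P.i 1) := by rw [hcomm]; exact hy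
    exact ((h0 e 1).1 h1).symm
  refine ⟨e, hee, h0, ?_, ?_⟩
  · intro t l
    rw [hsc l]
    rw [show l * (e * t 2) = e * (l * t 2) by rw [← mul_assoc, mul_comm l e, mul_assoc]]
  · intro a b c habc
    have h1 := hrev _ _ _ (P.i (e * a)) habc ((h0 a (e * a)).2 rfl)
    rw [hsc e, ← mul_assoc, ← mul_assoc, hee, one_mul, one_mul, hcomm] at h1
    exact h1

theorem inv_perm (P : Pres r m A) (hw : IsW r (m, h)) (e : A)
    (h2 : ∀ t : Fin 3 → A, ∀ l, P.i (e * t 2) ∈ h (P.i (t 0)) (P.i (t 1)) ↔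
        P.i (e * (l * t 2)) ∈ h (P.i (l * t 0)) (P.i (l * t 1)))
    (h3 : ∀ a b c, P.i (e * c) ∈ h (P.i a) (P.i b) → P.i (e * b) ∈ h (P.i a) (P.i c))
    (s t : Fin 3 → A) (hst : (tri A).r s t)
    (hs : P.i (e * s 2) ∈ h (P.i (s 0)) (P.i (s 1))) :
    P.i (e * t 2) ∈ h (P.i (t 0)) (P.i (t 1)) := by
  have hcomm : ∀ a b, h a b = h b a := hw.2.1
  -- invariance under permutations
  have hperm : ∀ σ : Equiv.Perm (Fin 3), ∀ t : Fin 3 → A,
      P.i (e * t 2) ∈ h (P.i (t 0)) (P.i (t 1)) →
      P.i (e * t (σ 2)) ∈ h (P.i (t (σ 0))) (P.i (t (σ 1))) := by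
    intro σ
    induction σ using Equiv.Perm.swap_induction_on with
    | one => intro t ht; exact ht
    | swap_mul f x y hxy ih =>
      intro t ht
      have key : ∀ t : Fin 3 → A, P.i (e * t 2) ∈ h (P.i (t 0)) (P.i (t 1)) →
          P.i (e * t (Equiv.swap x y 2)) ∈ h (P.i (t (Equiv.swap x y 0)))
            (P.i (t (Equiv.swap x y 1))) := by
        intro t ht
        have c01 : ∀ a b c, P.i (e * c) ∈ h (P.i a) (P.i b) → P.i (e * c) ∈ h (P.i b) (P.i a) :=
          fun a b c hh => by rw [hcomm]; exact hh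
        fin_cases x <;> fin_cases y <;> simp [Equiv.swap_apply_def] at hxy ⊢ <;>
          first
            | exact c01 _ _ _ ht
            | exact h3 _ _ _ ht
            | exact c01 _ _ _ (h3 _ _ _ (c01 _ _ _ ht))
      have := ih (fun i => t (Equiv.swap x y i)) (key t ht)
      exact this
  obtain ⟨l, σ, hl⟩ := hst
  have h4 := hperm σ.symm (fun i => l * s i) ((h2 s l).1 hs)
  have h5 : ∀ i, t i = l * s (σ.symm i) := by
    intro i
    have := hl (σ.symm i)
    rwa [Equiv.apply_symm_apply] at this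
  rw [← h5, ← h5, ← h5] at h4
  exact h4

end upper

end Pool.Agent.W360.HF
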