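import Mathlib

set_option autoImplicit false

/-!
# Triples of a commutative group up to scaling and permutation
-/

namespace Pool.Agent.W360.HF

variable {A : Type} [CommGroup A]

/-- Triples up to scaling and permutation. -/
def tri (A : Type) [CommGroup A] : Setoid (Fin 3 → A) where
  r s t := ∃ (l : A) (σ : Equiv.Perm (Fin 3)), ∀ i, t (σ i) = l * s i
  iseqv := by
    refine ⟨fun s => ⟨1, 1, fun i => by simp⟩, ?_, ?_⟩
    · rintro s t ⟨l, σ, h⟩
      refine ⟨l⁻¹, σ.symm, fun i => ?_⟩
      have := h (σ.symm i)
      simp only [Equiv.apply_symm_apply] at this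
      rw [this]; simp
    · rintro s t u ⟨l, σ, h⟩ ⟨m, τ, k⟩
      refine ⟨m * l, σ.trans τ, fun i => ?_⟩
      simp only [Equiv.trans_apply]
      rw [k, h, mul_assoc]

/-- The set of triples up to scaling and permutation. -/
abbrev Om (A : Type) [CommGroup A] : Type := Quotient (tri A)

/-- The class of a triple. -/
def cl (a b c : A) : Om A := Quotient.mk (tri A) ![a, b, c]

theorem cl_eq {a b c a' b' c' : A} (l : A) (σ : Equiv.Perm (Fin 3))
    (h : ∀ i, ![a', b', c'] (σ i) = l * ![a, b, c] i) : cl a b c = cl a' b' c' :=
  Quotient.sound ⟨l, σ, h⟩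

theorem cl_swap (a b c : A) : cl a b c = cl b a c := by
  refine cl_eq 1 (Equiv.swap 0 1) fun i => ?_
  fin_cases i <;> simp [Equiv.swap_apply_def]

theorem cl_swap' (a b c : A) : cl a b c = cl a c b := by
  refine cl_eq 1 (Equiv.swap 1 2) fun i => ?_
  fin_cases i <;> simp [Equiv.swap_apply_def]

theorem cl_rot (a b c : A) : cl a b c = cl b c a := by
  rw [cl_swap, cl_swap']

theorem cl_scale (l a b c : A) : cl (l * a) (l * b) (l * c) = cl a b c := by
  symm
  refine cl_eq l 1 fun i => ?_
  fin_cases i <;> simp

theorem cl_surj (w : Om A) : ∃ a b c, cl a b c = w := by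
  induction w using Quotient.inductionOn with
  | h t =>
    refine ⟨t 0, t 1, t 2, ?_⟩
    unfold cl
    congr 1
    ext i; fin_cases i <;> rfl

noncomputable instance [Fintype A] : Fintype (Om A) := Fintype.ofFinite _

noncomputable instance : DecidableEq (Om A) := Classical.decEq _

theorem fiber_card [Fintype A] (a b : A) (w : Om A) :
    (Finset.univ.filter (fun y => cl a b y = w)).card ≤ 6 := by
  classical
  rcases (Finset.univ.filter (fun y => cl a b y = w)).eq_empty_or_nonempty with h | ⟨y0, hy0⟩
  · rw [h]; simp
  · have h6 : Fintype.card (Equiv.Perm (Fin 3)) = 6 := by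
      rw [Fintype.card_perm]; simp [Nat.factorial]
    rw [← h6, ← Finset.card_univ]
    refine le_trans (Finset.card_le_card (t := Finset.univ.image
      (fun σ : Equiv.Perm (Fin 3) => a * (![a, b, y0] (σ.symm 0))⁻¹ * ![a, b, y0] (σ.symm 2)))
      ?_) Finset.card_image_le
    intro y hy
    simp only [Finset.mem_filter, Finset.mem_univ, true_and] at hy hy0
    simp only [Finset.mem_image, Finset.mem_univ, true_and]
    obtain ⟨l, σ, h⟩ := Quotient.exact (hy0.trans hy.symm)
    refine ⟨σ, ?_⟩
    have h0 := h (σ.symm 0)
    have h2 := h (σ.symm 2)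
    simp only [Equiv.apply_symm_apply] at h0 h2
    have e0 : a = l * ![a, b, y0] (σ.symm 0) := h0
    have e2 : y = l * ![a, b, y0] (σ.symm 2) := h2
    have el : a * (![a, b, y0] (σ.symm 0))⁻¹ = l := by
      rw [mul_inv_eq_iff_eq_mul]; exact e0
    rw [el]; exact e2.symm

/-! ### counting subsets -/

theorem count_forced {Ω : Type} [Fintype Ω] [DecidableEq Ω] (S : Finset Ω) :
    ((Finset.univ : Finset (Ω → Bool)).filter (fun R => ∀ s ∈ S, R s = true)).card * 2 ^ S.card
      = 2 ^ Fintype.card Ω := by
  have h : ((Finset.univ : Finset (Ω → Bool)).filter (fun R => ∀ s ∈ S, R s = true))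
      = Fintype.piFinset (fun w => if w ∈ S then {true} else Finset.univ) := by
    ext R
    simp only [Finset.mem_filter, Finset.mem_univ, true_and, Fintype.mem_piFinset]
    constructor
    · intro hR w
      split_ifs with hw
      · simp [hR w hw]
      · simp
    · intro hR s hs
      have := hR s
      rw [if_pos hs] at this
      simpa using this
  rw [h, Fintype.card_piFinset]
  have h2 : ∀ w : Ω, (if w ∈ S then ({true} : Finset Bool) else Finset.univ).card
      = if w ∈ S then 1 else 2 := by
    intro w; split_ifs <;> simp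
  simp only [h2]
  rw [Finset.prod_ite]
  simp only [Finset.prod_const_one, one_mul, Finset.prod_const]
  rw [← pow_add]
  congr 1
  have : (Finset.univ.filter (fun w => w ∉ S)) = Sᶜ := by
    ext w; simp
  rw [this, Finset.card_compl]
  have := Finset.card_le_univ S
  omega

theorem count_bad {Ω ι : Type} [Fintype Ω] [DecidableEq Ω] [DecidableEq ι] (u v : ι → Ω)
    (X : Finset ι)
    (hd : ∀ x ∈ X, ∀ y ∈ X, x ≠ y → u x ≠ u y ∧ u x ≠ v y ∧ v x ≠ u y ∧ v x ≠ v y) :
    4 ^ X.card * ((Finset.univ : Finset (Ω → Bool)).filter
      (fun R => ∀ x ∈ X, ¬ (R (u x) = true ∧ R (v x) = true))).card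
      ≤ 3 ^ X.card * 2 ^ Fintype.card Ω := by
  induction X using Finset.induction_on with
  | empty => simp
  | insert z X hz ih =>
    have ih' := ih (fun x hx y hy => hd x (Finset.mem_insert_of_mem hx) y
      (Finset.mem_insert_of_mem hy))
    set B := (Finset.univ : Finset (Ω → Bool)).filter
      (fun R => ∀ x ∈ X, ¬ (R (u x) = true ∧ R (v x) = true)) with hB
    set B1 := B.filter (fun R => ¬ (R (u z) = true ∧ R (v z) = true)) with hB1
    set B2 := B.filter (fun R => (R (u z) = true ∧ R (v z) = true)) with hB2
    have e1 : (Finset.univ : Finset (Ω → Bool)).filter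
        (fun R => ∀ x ∈ insert z X, ¬ (R (u x) = true ∧ R (v x) = true)) = B1 := by
      ext R
      simp only [hB1, hB, Finset.mem_filter, Finset.mem_univ, true_and, Finset.mem_insert,
        forall_eq_or_imp]
      tauto
    rw [e1, Finset.card_insert_of_notMem hz, pow_succ, pow_succ]
    have hsum : B2.card + B1.card = B.card := by
      rw [hB1, hB2]; exact Finset.card_filter_add_card_filter_not _
    let φ : (Ω → Bool) → (Ω → Bool) := fun R w => if w = u z ∨ w = v z then true else R w
    have hφ : B1.card ≤ 3 * B2.card := by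
      have h1 : B1.card ≤ 3 * (B1.image φ).card := by
        refine Finset.card_le_mul_card_image _ _ ?_
        intro T hT
        -- fibre
        have : (B1.filter (fun R => φ R = T)).card ≤
            ((Finset.univ : Finset (Bool × Bool)).filter (fun p => ¬ (p.1 = true ∧ p.2 = true))).card := by
          refine Finset.card_le_card_of_injOn (fun R => (R (u z), R (v z))) ?_ ?_
          · intro R hR
            have hR1 : R ∈ B1.filter (fun R => φ R = T) := hR
            rw [Finset.mem_filter] at hR1
            have hR2 := hR1.1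
            rw [hB1, Finset.mem_filter] at hR2
            simp only [Finset.coe_filter, Finset.mem_univ, true_and, Set.mem_ofPred_eq]
            exact hR2.2
          · intro R hR R' hR' hRR
            have h1 : φ R = T := by
              have hR1 : R ∈ B1.filter (fun R => φ R = T) := hR
              exact (Finset.mem_filter.1 hR1).2
            have h2 : φ R' = T := by
              have hR1 : R' ∈ B1.filter (fun R => φ R = T) := hR'
              exact (Finset.mem_filter.1 hR1).2
            simp only [Prod.mk.injEq] at hRR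
            funext w
            by_cases hw : w = u z ∨ w = v z
            · rcases hw with hw | hw
              · rw [hw]; exact hRR.1
              · rw [hw]; exact hRR.2
            · have e := congrFun (h1.trans h2.symm) w
              simp only [φ, if_neg hw] at e
              exact e
        refine this.trans ?_
        decide
      refine h1.trans (Nat.mul_le_mul_left 3 (Finset.card_le_card ?_))
      intro T hT
      rw [Finset.mem_image] at hT
      obtain ⟨R, hR, rfl⟩ := hT
      rw [hB1, Finset.mem_filter, hB, Finset.mem_filter] at hR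
      rw [hB2, Finset.mem_filter, hB, Finset.mem_filter]
      refine ⟨⟨Finset.mem_univ _, fun x hx => ?_⟩, by simp [φ], by simp [φ]⟩
      have hne : x ≠ z := fun h => hz (h ▸ hx)
      obtain ⟨d1, d2, d3, d4⟩ := hd x (Finset.mem_insert_of_mem hx) z (Finset.mem_insert_self _ _) hne
      have a1 : φ R (u x) = R (u x) := by
        simp only [φ]; rw [if_neg]; push Not; exact ⟨d1, d2⟩
      have a2 : φ R (v x) = R (v x) := by
        simp only [φ]; rw [if_neg]; push Not; exact ⟨d3, d4⟩
      rw [a1, a2]
      exact hR.1.2 x hx
    have h4 : 4 * B1.card ≤ 3 * B.card := by omega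
    calc 4 ^ X.card * 4 * B1.card = 4 ^ X.card * (4 * B1.card) := by ring
      _ ≤ 4 ^ X.card * (3 * B.card) := Nat.mul_le_mul_left _ h4
      _ = 3 * (4 ^ X.card * B.card) := by ring
      _ ≤ 3 * (3 ^ X.card * 2 ^ Fintype.card Ω) := Nat.mul_le_mul_left _ ih'
      _ = 3 ^ X.card * 3 * 2 ^ Fintype.card Ω := by ring

/-- a large subset on which the pairs are pairwise disjoint -/
theorem exists_indep {Ω ι : Type} [Fintype Ω] [DecidableEq Ω] [Fintype ι] [DecidableEq ι]
    (u v : ι → Ω) (k : ℕ)
    (hu : ∀ w, (Finset.univ.filter (fun y => u y = w)).card ≤ k)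
    (hv : ∀ w, (Finset.univ.filter (fun y => v y = w)).card ≤ k) :
    ∃ X : Finset ι, (∀ x ∈ X, ∀ y ∈ X, x ≠ y → u x ≠ u y ∧ u x ≠ v y ∧ v x ≠ u y ∧ v x ≠ v y) ∧
      Fintype.card ι ≤ 4 * k * X.card := by
  let P : Finset ι → Prop := fun X =>
    ∀ x ∈ X, ∀ y ∈ X, x ≠ y → u x ≠ u y ∧ u x ≠ v y ∧ v x ≠ u y ∧ v x ≠ v y
  classical
  obtain ⟨X, hX, hmax⟩ := Finset.exists_max_image (Finset.univ.filter P) Finset.card
    ⟨∅, by simp [P]⟩
  rw [Finset.mem_filter] at hX
  refine ⟨X, hX.2, ?_⟩
  -- every y is in conflict with a member of X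
  let N : ι → Finset ι := fun x =>
    (Finset.univ.filter (fun y => u y = u x)) ∪ (Finset.univ.filter (fun y => u y = v x)) ∪
    ((Finset.univ.filter (fun y => v y = u x)) ∪ (Finset.univ.filter (fun y => v y = v x)))
  have hN : ∀ x, (N x).card ≤ 4 * k := by
    intro x
    refine (Finset.card_union_le _ _).trans ?_
    have h1 := Finset.card_union_le (Finset.univ.filter (fun y => u y = u x))
      (Finset.univ.filter (fun y => u y = v x))
    have h2 := Finset.card_union_le (Finset.univ.filter (fun y => v y = u x))
      (Finset.univ.filter (fun y => v y = v x))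
    have := hu (u x); have := hu (v x); have := hv (u x); have := hv (v x)
    omega
  have hcov : (Finset.univ : Finset ι) ⊆ X.biUnion N := by
    intro y _
    rw [Finset.mem_biUnion]
    by_contra hcon
    push Not at hcon
    have hyX : y ∉ X := fun h => hcon y h (by simp [N])
    have hP : P (insert y X) := by
      intro a ha b hb hab
      rw [Finset.mem_insert] at ha hb
      rcases ha with rfl | ha <;> rcases hb with rfl | hb
      · exact absurd rfl hab
      · have := hcon b hb
        simp only [N, Finset.mem_union, Finset.mem_filter, Finset.mem_univ, true_and,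
          not_or] at this
        exact ⟨this.1.1, this.1.2, this.2.1, this.2.2⟩
      · have := hcon a ha
        simp only [N, Finset.mem_union, Finset.mem_filter, Finset.mem_univ, true_and,
          not_or] at this
        exact ⟨fun h => this.1.1 h.symm, fun h => this.2.1 h.symm,
          fun h => this.1.2 h.symm, fun h => this.2.2 h.symm⟩
      · exact hX.2 a ha b hb hab
    have := hmax (insert y X) (by simp [hP])
    rw [Finset.card_insert_of_notMem hyX] at this
    omega
  calc Fintype.card ι = (Finset.univ : Finset ι).card := rfl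
    _ ≤ (X.biUnion N).card := Finset.card_le_card hcov
    _ ≤ ∑ x ∈ X, (N x).card := Finset.card_biUnion_le
    _ ≤ ∑ x ∈ X, 4 * k := Finset.sum_le_sum fun x _ => hN x
    _ = 4 * k * X.card := by rw [Finset.sum_const]; simp [mul_comm]

end Pool.Agent.W360.HF
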