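import Pool.Agent.W360.HF.Classes

set_option autoImplicit false

/-!
# Quotient hyperfields of large fields are big, and those of small fields are few
-/

namespace Pool.Agent.W360.HF

variable {r : ℕ}

theorem index_eq {K : Type} [Field K] (G : Subgroup Kˣ) (f : K → Fin (r+1))
    (hs : Function.Surjective f) (h0 : f 0 = 0)
    (hf : ∀ x y : K, f x = f y ↔ ∃ g ∈ G, y = x * (g : K)) : G.index = r := by
  have hz : ∀ x : K, f x = 0 ↔ x = 0 := by
    intro x
    constructor
    · intro hx
      rw [← h0] at hx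
      obtain ⟨g, _, hg⟩ := (hf x 0).1 hx
      rcases mul_eq_zero.1 hg.symm with h | h
      · exact h
      · exact absurd h g.ne_zero
    · rintro rfl; exact h0
  have hlift : ∀ u v : Kˣ, (QuotientGroup.leftRel G) u v → f u = f v := by
    intro u v h
    rw [QuotientGroup.leftRel_apply] at h
    refine (hf _ _).2 ⟨u⁻¹ * v, h, ?_⟩
    rw [← Units.val_mul, mul_inv_cancel_left]
  let φ : Kˣ ⧸ G → {x : Fin (r+1) // x ≠ 0} :=
    fun q => ⟨Quotient.lift (fun u : Kˣ => f u) (fun u v h => hlift u v h) q, by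
      induction q using Quotient.inductionOn with
      | _ u =>
        intro h
        exact u.ne_zero ((hz _).1 h)⟩
  have hφ : Function.Bijective φ := by
    constructor
    · intro a b h
      induction a using Quotient.inductionOn with
      | _ u =>
        induction b using Quotient.inductionOn with
        | _ v =>
          have h' : f u = f v := congrArg Subtype.val h
          obtain ⟨g, hg, hv⟩ := (hf _ _).1 h'
          refine Quotient.sound ?_
          show (QuotientGroup.leftRel G) u v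
          rw [QuotientGroup.leftRel_apply]
          have : v = u * g := Units.ext hv
          rw [this, inv_mul_cancel_left]
          exact hg
    · rintro ⟨a, ha⟩
      obtain ⟨x, rfl⟩ := hs a
      have hx : x ≠ 0 := fun h => ha ((hz _).2 h)
      exact ⟨(QuotientGroup.mk (Units.mk0 x hx) : Kˣ ⧸ G), Subtype.ext rfl⟩
  have h1 : G.index = Nat.card {x : Fin (r+1) // x ≠ 0} := Nat.card_congr (Equiv.ofBijective φ hφ)
  rw [h1, Nat.card_eq_fintype_card, Fintype.card_subtype_compl]
  simp

theorem big_of_diff {K : Type} [Field K] (G : Subgroup Kˣ) (f : K → Fin (r+1)) (p : Str r)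
    (hs : Function.Surjective f) (h0 : f 0 = 0)
    (hf : ∀ x y : K, f x = f y ↔ ∃ g ∈ G, y = x * (g : K))
    (hm : ∀ x y : K, f (x * y) = p.1 (f x) (f y))
    (ha : ∀ x y : K, p.2 (f x) (f y) = {z | ∃ g ∈ G, ∃ h ∈ G, z = f (x * (g : K) + y * (h : K))})
    (hd : ∀ c : K, c ≠ 0 → ∃ x ∈ G, ∃ y ∈ G, ∃ z ∈ G, (x : K) - (y : K) = c * (z : K)) :
    Big r p := by
  have hz : ∀ x : K, f x = 0 ↔ x = 0 := by
    intro x
    constructor
    · intro hx
      rw [← h0] at hx
      obtain ⟨g, _, hg⟩ := (hf x 0).1 hx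
      rcases mul_eq_zero.1 hg.symm with h | h
      · exact h
      · exact absurd h g.ne_zero
    · rintro rfl; exact h0
  have hzero : (0 : Fin (r+1)) ∈ p.2 (f 1) (f (-1)) := by
    rw [ha]
    refine ⟨1, G.one_mem, 1, G.one_mem, ?_⟩
    simp [h0]
  refine ⟨f 1, f (-1), fun h => one_ne_zero ((hz 1).1 h), ?_, hzero, ?_⟩
  · intro a
    obtain ⟨x, rfl⟩ := hs a
    rw [← hm, one_mul]
  · intro z
    obtain ⟨c, rfl⟩ := hs z
    by_cases hc : c = 0
    · rw [hc, h0]; exact hzero
    · obtain ⟨x, hx, y, hy, w, hw, h⟩ := hd c hc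
      rw [ha]
      refine ⟨x, hx, y, hy, ?_⟩
      refine (hf _ _).2 ⟨w, hw, ?_⟩
      rw [← h]; ring

/-- a quotient hyperfield coming from a field with `n` elements -/
def HasCard (r : ℕ) (p : Str r) (n : ℕ) : Prop :=
  ∃ (K : Type) (_ : Field K) (_ : Fintype K), ∃ G : Subgroup Kˣ, ∃ f : K → Fin (r+1),
    Fintype.card K = n ∧
    Function.Surjective f ∧ f 0 = 0 ∧
    (∀ x y : K, f x = f y ↔ ∃ g ∈ G, y = x * (g : K)) ∧
    (∀ x y : K, f (x * y) = p.1 (f x) (f y)) ∧
    (∀ x y : K, p.2 (f x) (f y) = {z | ∃ g ∈ G, ∃ h ∈ G, z = f (x * (g : K) + y * (h : K))})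

theorem big_or_card (hr : r ≠ 0) {p : Str r} (hp : IsQ r p) :
    Big r p ∨ ∃ n ≤ 16 * r ^ 4, HasCard r p n := by
  obtain ⟨K, _, G, f, hs, h0, hf, hm, ha⟩ := hp
  have hi := index_eq G f hs h0 hf
  rcases finite_or_infinite K with hK | hK
  · let _ : Fintype K := Fintype.ofFinite K
    by_cases hc : 16 * r ^ 4 < Fintype.card K
    · left
      exact big_of_diff G f p hs h0 hf hm ha (diff_finite G (by rw [hi]; exact hc))
    · right
      exact ⟨Fintype.card K, not_lt.1 hc, K, _, inferInstance, G, f, rfl, hs, h0, hf, hm, ha⟩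
  · left
    exact big_of_diff G f p hs h0 hf hm ha (fun c _ => diff_infinite G (by rw [hi]; exact hr) c)

theorem subgroup_eq {C : Type} [CommGroup C] [Finite C] [IsCyclic C] (G G' : Subgroup C)
    (h : G.index = G'.index) : G = G' := by
  classical
  have hcard : Nat.card G = Nat.card G' := by
    have h1 := G.card_mul_index
    have h2 := G'.card_mul_index
    rw [h] at h1
    have h3 : G'.index ≠ 0 := Subgroup.index_ne_zero_of_finite
    exact Nat.eq_of_mul_eq_mul_right (Nat.pos_of_ne_zero h3) (h1.trans h2.symm)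
  let _ : Fintype C := Fintype.ofFinite C
  have key : ∀ H : Subgroup C, Nat.card H = Nat.card G →
      (Finset.univ.filter (fun x : C => x ∈ H)) =
      (Finset.univ.filter (fun x : C => x ^ (Nat.card G) = 1)) := by
    intro H hH
    have hpos : 0 < Nat.card G := Nat.card_pos
    refine Finset.eq_of_subset_of_card_le ?_ ?_
    · intro x hx
      rw [Finset.mem_filter] at hx ⊢
      refine ⟨Finset.mem_univ _, ?_⟩
      have := pow_card_eq_one' (x := (⟨x, hx.2⟩ : H))
      rw [hH] at this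
      exact congrArg Subtype.val this
    · refine (IsCyclic.card_pow_eq_one_le hpos).trans ?_
      rw [← hH, Nat.card_eq_fintype_card, Fintype.card_subtype]
  ext x
  have h1 := (key G rfl).trans (key G' hcard.symm).symm
  have h2 := Finset.ext_iff.1 h1 x
  simpa using h2

theorem iso_of_card {p p' : Str r} {n : ℕ} (hp : HasCard r p n) (hp' : HasCard r p' n) :
    Iso r p p' := by
  obtain ⟨K, _, _, G, f, hn, hs, h0, hf, hm, ha⟩ := hp
  obtain ⟨K', _, _, G', f', hn', hs', h0', hf', hm', ha'⟩ := hp'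
  have hi := index_eq G f hs h0 hf
  have hi' := index_eq G' f' hs' h0' hf'
  let σ : K ≃+* K' := FiniteField.ringEquivOfCardEq (hn.trans hn'.symm)
  let τ : Kˣ ≃* K'ˣ := Units.mapEquiv σ.toMulEquiv
  have hτ : ∀ u : Kˣ, ((τ u : K'ˣ) : K') = σ u := fun u => rfl
  have hG : G.map τ.toMonoidHom = G' := by
    apply subgroup_eq
    rw [hi', ← hi]
    exact Subgroup.index_map_of_bijective τ.bijective G
  have hmem : ∀ g : Kˣ, g ∈ G → τ g ∈ G' := fun g hg => by
    rw [← hG]; exact ⟨g, hg, rfl⟩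
  have hmem' : ∀ g' ∈ G', ∃ g ∈ G, τ g = g' := by
    intro g' hg'
    rw [← hG] at hg'
    exact hg'
  have hff : ∀ x y : K, f x = f y ↔ f' (σ x) = f' (σ y) := by
    intro x y
    rw [hf, hf']
    constructor
    · rintro ⟨g, hg, rfl⟩
      exact ⟨τ g, hmem g hg, by rw [hτ, map_mul]⟩
    · rintro ⟨g', hg', h⟩
      obtain ⟨g, hg, rfl⟩ := hmem' g' hg'
      exact ⟨g, hg, σ.injective (by rw [h, hτ, map_mul])⟩
  let e0 : Fin (r+1) → Fin (r+1) := fun a => f' (σ (Function.surjInv hs a))
  have he0 : ∀ x, e0 (f x) = f' (σ x) := fun x =>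
    (hff _ _).1 (Function.surjInv_eq hs (f x))
  have hbij : Function.Bijective e0 := by
    constructor
    · intro a b h
      have := (hff _ _).2 h
      rwa [Function.surjInv_eq hs, Function.surjInv_eq hs] at this
    · intro b
      obtain ⟨x', rfl⟩ := hs' b
      exact ⟨f (σ.symm x'), by rw [he0, RingEquiv.apply_symm_apply]⟩
  refine ⟨Equiv.ofBijective e0 hbij, fun a b => ?_⟩
  obtain ⟨x, rfl⟩ := hs a
  obtain ⟨y, rfl⟩ := hs b
  constructor
  · show e0 (p.1 (f x) (f y)) = p'.1 (e0 (f x)) (e0 (f y))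
    rw [← hm, he0, he0, he0, map_mul, hm']
  · show e0 '' (p.2 (f x) (f y)) = p'.2 (e0 (f x)) (e0 (f y))
    rw [he0, he0, ha, ha']
    ext z
    constructor
    · rintro ⟨w, ⟨g, hg, h, hh, rfl⟩, rfl⟩
      refine ⟨τ g, hmem g hg, τ h, hmem h hh, ?_⟩
      rw [he0, map_add, map_mul, map_mul, hτ, hτ]
    · rintro ⟨g', hg', h', hh', rfl⟩
      obtain ⟨g, hg, rfl⟩ := hmem' g' hg'
      obtain ⟨h, hh, rfl⟩ := hmem' h' hh'
      refine ⟨_, ⟨g, hg, h, hh, rfl⟩, ?_⟩
      rw [he0, map_add, map_mul, map_mul, hτ, hτ]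

open Classical in
theorem small_count (hr : r ≠ 0) :
    (NQ r).card ≤ ((LB r).image clsQ).card + (16 * r ^ 4 + 1) := by
  let S : Finset (Str r) := (Finset.univ : Finset (Str r)).filter
    (fun p => IsQ r p ∧ ¬ Big r p)
  have h1 : NQ r ⊆ (LB r).image clsQ ∪ S.image clsQ := by
    intro C hC
    rw [NQ, Finset.mem_image] at hC
    obtain ⟨p, hp, rfl⟩ := hC
    rw [Finset.mem_filter] at hp
    rw [Finset.mem_union]
    by_cases hB : Big r p
    · left
      exact Finset.mem_image.2 ⟨p, by simp [LB, hp.2, hB], rfl⟩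
    · right
      exact Finset.mem_image.2 ⟨p, by simp [S, hp.2, hB], rfl⟩
  have h2 : (S.image clsQ).card ≤ (Finset.range (16 * r ^ 4 + 1)).card := by
    have hex : ∀ C ∈ S.image clsQ, ∃ n, n ≤ 16 * r ^ 4 ∧ ∃ p, HasCard r p n ∧ clsQ p = C := by
      intro C hC
      rw [Finset.mem_image] at hC
      obtain ⟨p, hp, rfl⟩ := hC
      rw [Finset.mem_filter] at hp
      rcases big_or_card hr hp.2.1 with h | ⟨n, hn, h⟩
      · exact absurd h hp.2.2
      · exact ⟨n, hn, p, h, rfl⟩
    let F : Set (Str r) → ℕ := fun C =>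
      if h : ∃ n, n ≤ 16 * r ^ 4 ∧ ∃ p, HasCard r p n ∧ clsQ p = C then h.choose else 0
    refine Finset.card_le_card_of_injOn F ?_ ?_
    · intro C hC
      have h := hex C hC
      have : F C = h.choose := dif_pos h
      rw [this, Finset.mem_coe, Finset.mem_range]
      exact Nat.lt_succ_of_le h.choose_spec.1
    · intro C hC C' hC' hF
      have h := hex C hC
      have h' := hex C' hC'
      have e1 : F C = h.choose := dif_pos h
      have e2 : F C' = h'.choose := dif_pos h'
      rw [e1, e2] at hF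
      obtain ⟨p, hp, rfl⟩ := h.choose_spec.2
      obtain ⟨p', hp', rfl⟩ := h'.choose_spec.2
      rw [hF] at hp
      exact clsQ_eq (iso_of_card hp hp')
  rw [Finset.card_range] at h2
  calc (NQ r).card ≤ _ := Finset.card_le_card h1
    _ ≤ _ := Finset.card_union_le _ _
    _ ≤ _ := Nat.add_le_add_left h2 _

end Pool.Agent.W360.HF
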