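import Pool.Agent.W360.HF.Generic
import Pool.Agent.W360.HF.FinField
import Pool.Agent.W360.HF.InfField

set_option autoImplicit false

/-!
# Hyperfield structures on `Fin (r + 1)`
-/

namespace Pool.Agent.W360.HF

/-- pairs (multiplication, hyperaddition) -/
abbrev Str (r : ℕ) : Type :=
  (Fin (r+1) → Fin (r+1) → Fin (r+1)) × (Fin (r+1) → Fin (r+1) → Set (Fin (r+1)))

/-- quotient hyperfields -/
def IsQ (r : ℕ) (p : Str r) : Prop :=
  ∃ (K : Type) (_ : Field K), ∃ G : Subgroup Kˣ, ∃ f : K → Fin (r+1),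
    Function.Surjective f ∧ f 0 = 0 ∧
    (∀ x y : K, f x = f y ↔ ∃ g ∈ G, y = x * (g : K)) ∧
    (∀ x y : K, f (x * y) = p.1 (f x) (f y)) ∧
    (∀ x y : K, p.2 (f x) (f y) = {z | ∃ g ∈ G, ∃ h ∈ G, z = f (x * (g : K) + y * (h : K))})

/-- hyperfields -/
def IsH (r : ℕ) (p : Str r) : Prop :=
  (∃ u : Fin (r+1), u ≠ 0 ∧ ∀ a, p.1 u a = a) ∧
    (∀ a b, p.1 a b = p.1 b a) ∧
    (∀ a b c, p.1 (p.1 a b) c = p.1 a (p.1 b c)) ∧
    (∀ a, p.1 0 a = 0) ∧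
    (∀ a b, a ≠ 0 → b ≠ 0 → p.1 a b ≠ 0) ∧
    (∀ a, a ≠ 0 → ∃ b, ∀ c, p.1 (p.1 a b) c = c) ∧
    (∀ a b, (p.2 a b).Nonempty) ∧
    (∀ a b, p.2 a b = p.2 b a) ∧
    (∀ a b c, (⋃ x ∈ p.2 a b, p.2 x c) = ⋃ x ∈ p.2 b c, p.2 a x) ∧
    (∀ a, p.2 0 a = {a}) ∧
    (∀ a, ∃! b, (0 : Fin (r+1)) ∈ p.2 a b) ∧
    (∀ a b c d, a ∈ p.2 b c → (0 : Fin (r+1)) ∈ p.2 b d → c ∈ p.2 a d) ∧
    (∀ a b c, (fun x => p.1 a x) '' p.2 b c = p.2 (p.1 a b) (p.1 a c))

/-- isomorphism -/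
def Iso (r : ℕ) (p q : Str r) : Prop :=
  ∃ e : Fin (r+1) ≃ Fin (r+1), ∀ a b, e (p.1 a b) = q.1 (e a) (e b) ∧
    e '' p.2 a b = q.2 (e a) (e b)

/-- multiplication tables of hyperfields -/
def IsM (r : ℕ) (m : Fin (r+1) → Fin (r+1) → Fin (r+1)) : Prop :=
  (∃ u : Fin (r+1), u ≠ 0 ∧ ∀ a, m u a = a) ∧
    (∀ a b, m a b = m b a) ∧
    (∀ a b c, m (m a b) c = m a (m b c)) ∧
    (∀ a, m 0 a = 0) ∧
    (∀ a b, a ≠ 0 → b ≠ 0 → m a b ≠ 0) ∧
    (∀ a, a ≠ 0 → ∃ b, ∀ c, m (m a b) c = c)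

/-- weak form of the hyperfield axioms -/
def IsW (r : ℕ) (p : Str r) : Prop :=
  IsM r p.1 ∧ (∀ a b, p.2 a b = p.2 b a) ∧ (∀ a, p.2 0 a = {a}) ∧
    (∀ a, ∃! b, (0 : Fin (r+1)) ∈ p.2 a b) ∧
    (∀ a b c d, a ∈ p.2 b c → (0 : Fin (r+1)) ∈ p.2 b d → c ∈ p.2 a d) ∧
    (∀ a b c, (fun x => p.1 a x) '' p.2 b c = p.2 (p.1 a b) (p.1 a c))

theorem IsH.isM {r : ℕ} {p : Str r} (h : IsH r p) : IsM r p.1 :=
  ⟨h.1, h.2.1, h.2.2.1, h.2.2.2.1, h.2.2.2.2.1, h.2.2.2.2.2.1⟩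

theorem IsQ.isW {r : ℕ} {p : Str r} (h : IsQ r p) : IsW r p := by
  obtain ⟨K, _, G, f, hs, h0, hf, hm, ha⟩ := h
  have hz : ∀ x : K, f x = 0 ↔ x = 0 := by
    intro x
    constructor
    · intro hx
      rw [← h0] at hx
      obtain ⟨g, _, hg⟩ := (hf x 0).1 hx
      rcases mul_eq_zero.1 hg.symm with h | h
      · exact h
      · exact absurd h g.ne_zero
    · rintro rfl; exact h0
  refine ⟨⟨⟨f 1, fun h => one_ne_zero ((hz 1).1 h), ?_⟩, ?_, ?_, ?_, ?_, ?_⟩, ?_, ?_, ?_, ?_, ?_⟩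
  · intro a
    obtain ⟨x, rfl⟩ := hs a
    rw [← hm, one_mul]
  · intro a b
    obtain ⟨x, rfl⟩ := hs a
    obtain ⟨y, rfl⟩ := hs b
    rw [← hm, ← hm, mul_comm]
  · intro a b c
    obtain ⟨x, rfl⟩ := hs a
    obtain ⟨y, rfl⟩ := hs b
    obtain ⟨z, rfl⟩ := hs c
    rw [← hm, ← hm, ← hm, ← hm, mul_assoc]
  · intro a
    obtain ⟨x, rfl⟩ := hs a
    have : p.1 (f 0) (f x) = f 0 := by rw [← hm, zero_mul]
    rwa [h0] at this
  · intro a b ha hb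
    obtain ⟨x, rfl⟩ := hs a
    obtain ⟨y, rfl⟩ := hs b
    rw [← hm]
    intro h
    rcases mul_eq_zero.1 ((hz _).1 h) with h | h
    · exact ha ((hz _).2 h)
    · exact hb ((hz _).2 h)
  · intro a ha
    obtain ⟨x, rfl⟩ := hs a
    have hx : x ≠ 0 := fun h => ha ((hz _).2 h)
    refine ⟨f x⁻¹, fun c => ?_⟩
    obtain ⟨z, rfl⟩ := hs c
    rw [← hm, ← hm, mul_inv_cancel₀ hx, one_mul]
  · intro a b
    obtain ⟨x, rfl⟩ := hs a
    obtain ⟨y, rfl⟩ := hs b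
    rw [ha, ha]
    ext z
    constructor
    · rintro ⟨g, hg, h, hh, rfl⟩
      exact ⟨h, hh, g, hg, congrArg f (add_comm _ _)⟩
    · rintro ⟨g, hg, h, hh, rfl⟩
      exact ⟨h, hh, g, hg, congrArg f (add_comm _ _)⟩
  · intro a
    obtain ⟨x, rfl⟩ := hs a
    have := ha 0 x
    rw [h0] at this
    rw [this]
    ext z
    constructor
    · rintro ⟨g, hg, h, hh, rfl⟩
      rw [Set.mem_singleton_iff, zero_mul, zero_add]
      exact ((hf _ _).2 ⟨h, hh, rfl⟩).symm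
    · intro hzz
      rw [Set.mem_singleton_iff] at hzz
      exact ⟨1, G.one_mem, 1, G.one_mem, by rw [hzz]; simp⟩
  · intro a
    obtain ⟨x, rfl⟩ := hs a
    refine ⟨f (-x), ?_, ?_⟩
    · show (0 : Fin (r+1)) ∈ p.2 (f x) (f (-x))
      rw [ha]
      exact ⟨1, G.one_mem, 1, G.one_mem, by simp [h0]⟩
    · intro b hb
      obtain ⟨y, rfl⟩ := hs b
      rw [ha] at hb
      obtain ⟨g, hg, h, hh, he⟩ := hb
      have h1 := (hz _).1 he.symm
      -- x g + y h = 0 so y = - x g h⁻¹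
      symm
      refine (hf _ _).2 ⟨g * h⁻¹, G.mul_mem hg (G.inv_mem hh), ?_⟩
      have h2 : (h : K) ≠ 0 := h.ne_zero
      rw [Units.val_mul, Units.val_inv_eq_inv_val]
      field_simp
      linear_combination h1
  · intro a b c d h1 h2
    obtain ⟨x, rfl⟩ := hs a
    obtain ⟨y, rfl⟩ := hs b
    obtain ⟨z, rfl⟩ := hs c
    obtain ⟨w, rfl⟩ := hs d
    rw [ha] at h1 h2 ⊢
    obtain ⟨g, hg, h, hh, e1⟩ := h1
    obtain ⟨k, hk, l, hl, e2⟩ := h2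
    obtain ⟨m, hm', e3⟩ := (hf _ _).1 e1
    have e4 := (hz _).1 e2.symm
    -- y g + z h = x m ; y k + w l = 0
    refine ⟨m * h⁻¹, G.mul_mem hm' (G.inv_mem hh), l * k⁻¹ * g * h⁻¹,
      G.mul_mem (G.mul_mem (G.mul_mem hl (G.inv_mem hk)) hg) (G.inv_mem hh), ?_⟩
    congr 1
    have n1 : (h : K) ≠ 0 := h.ne_zero
    have n2 : (k : K) ≠ 0 := k.ne_zero
    simp only [Units.val_mul, Units.val_inv_eq_inv_val]
    field_simp
    linear_combination (k : K) * e3 - (g : K) * e4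
  · intro a b c
    obtain ⟨x, rfl⟩ := hs a
    obtain ⟨y, rfl⟩ := hs b
    obtain ⟨z, rfl⟩ := hs c
    rw [← hm, ← hm, ha, ha]
    ext w
    constructor
    · rintro ⟨v, ⟨g, hg, h, hh, rfl⟩, rfl⟩
      refine ⟨g, hg, h, hh, ?_⟩
      dsimp only
      rw [← hm]
      congr 1; ring
    · rintro ⟨g, hg, h, hh, rfl⟩
      refine ⟨_, ⟨g, hg, h, hh, rfl⟩, ?_⟩
      dsimp only
      rw [← hm]
      congr 1; ring

/-- A presentation of the nonzero elements by a commutative group. -/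
structure Pres (r : ℕ) (m : Fin (r+1) → Fin (r+1) → Fin (r+1)) (A : Type) [CommGroup A] where
  i : A → Fin (r+1)
  inj : Function.Injective i
  ne : ∀ a, i a ≠ 0
  surj : ∀ x, x ≠ 0 → ∃ a, i a = x
  mul : ∀ a b, m (i a) (i b) = i (a * b)

theorem exists_pres {r : ℕ} {m : Fin (r+1) → Fin (r+1) → Fin (r+1)} (h : IsM r m) :
    ∃ (A : Type) (_ : CommGroup A), Nonempty (Pres r m A) := by
  obtain ⟨⟨u, hu0, hu⟩, hcomm, hassoc, hzero, hne, hinv⟩ := h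
  have hzero' : ∀ a, m a 0 = 0 := fun a => by rw [hcomm, hzero]
  have hinv' : ∀ a : {a : Fin (r+1) // a ≠ 0}, ∃ b : {a : Fin (r+1) // a ≠ 0}, m b a = u := by
    rintro ⟨a, ha⟩
    obtain ⟨b, hb⟩ := hinv a ha
    have hb0 : b ≠ 0 := by
      rintro rfl
      have := hb u
      rw [hzero', hzero] at this
      exact hu0 this.symm
    refine ⟨⟨b, hb0⟩, ?_⟩
    have := hb u
    rw [hcomm _ u, hu, hcomm] at this
    exact this
  choose inv hinv2 using hinv'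
  let grp : CommGroup {a : Fin (r+1) // a ≠ 0} :=
    { mul := fun a b => ⟨m a b, hne a b a.2 b.2⟩
      one := ⟨u, hu0⟩
      inv := inv
      mul_assoc := fun a b c => Subtype.ext (hassoc a b c)
      one_mul := fun a => Subtype.ext (hu a)
      mul_one := fun a => Subtype.ext ((hcomm a u).trans (hu a))
      inv_mul_cancel := fun a => Subtype.ext (hinv2 a)
      mul_comm := fun a b => Subtype.ext (hcomm a b) }
  refine ⟨{a : Fin (r+1) // a ≠ 0}, grp, ⟨?_⟩⟩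
  exact
    { i := Subtype.val
      inj := Subtype.val_injective
      ne := fun a => a.2
      surj := fun x hx => ⟨⟨x, hx⟩, rfl⟩
      mul := fun a b => rfl }

theorem Pres.card {r : ℕ} {m : Fin (r+1) → Fin (r+1) → Fin (r+1)} {A : Type} [CommGroup A]
    [Fintype A] (P : Pres r m A) : Fintype.card A = r := by
  classical
  have h : (Finset.univ : Finset A).card = ((Finset.univ : Finset (Fin (r+1))).erase 0).card := by
    refine Finset.card_bij (fun a _ => P.i a) ?_ ?_ ?_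
    · intro a _; exact Finset.mem_erase.2 ⟨P.ne a, Finset.mem_univ _⟩
    · intro a _ b _ hab; exact P.inj hab
    · intro x hx
      obtain ⟨a, ha⟩ := P.surj x (Finset.ne_of_mem_erase hx)
      exact ⟨a, Finset.mem_univ _, ha⟩
  rw [Finset.card_univ] at h
  rw [h, Finset.card_erase_of_mem (Finset.mem_univ _), Finset.card_univ, Fintype.card_fin]
  rfl

end Pool.Agent.W360.HF
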