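import Pool.Agent.W360.HF.Lower

set_option autoImplicit false

/-!
# Counting hyperadditions over a fixed multiplication table
-/

namespace Pool.Agent.W360.HF

variable {r : ℕ} {m : Fin (r+1) → Fin (r+1) → Fin (r+1)} {A : Type} [CommGroup A] [Fintype A]

open Classical in
theorem upper_count (P : Pres r m A) :
    ((Finset.univ : Finset (Fin (r+1) → Fin (r+1) → Set (Fin (r+1)))).filter
      (fun h => IsW r (m, h) ∧ Big r (m, h))).card ≤
    ((Finset.univ : Finset (A × (Om A → Bool))).filter
      (fun p => ∀ w ∈ R0 p.1, p.2 w = true)).card := by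
  have key : ∀ h ∈ (Finset.univ : Finset (Fin (r+1) → Fin (r+1) → Set (Fin (r+1)))).filter
      (fun h => IsW r (m, h) ∧ Big r (m, h)),
      ∃ p : A × (Om A → Bool), (∀ w ∈ R0 p.1, p.2 w = true) ∧
        (∀ a b, (0 : Fin (r+1)) ∈ h (P.i a) (P.i b) ↔ b = p.1 * a) ∧ p.1 * p.1 = 1 ∧
        (∀ a b c, P.i (p.1 * c) ∈ h (P.i a) (P.i b) ↔ p.2 (cl a b c) = true) := by
    intro h hh
    rw [Finset.mem_filter] at hh
    obtain ⟨-, hw, hbig⟩ := hh
    obtain ⟨e, hee, h0, h2, h3⟩ := exists_eps P hw
    let R : Om A → Bool := fun w =>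
      decide (P.i (e * w.out 2) ∈ h (P.i (w.out 0)) (P.i (w.out 1)))
    have hR : ∀ a b c, P.i (e * c) ∈ h (P.i a) (P.i b) ↔ R (cl a b c) = true := by
      intro a b c
      have h1 : (tri A).r ![a, b, c] (cl a b c).out :=
        Quotient.exact (Quotient.out_eq (cl a b c)).symm
      have h1' : (tri A).r (cl a b c).out ![a, b, c] := (tri A).symm h1
      simp only [R, decide_eq_true_eq]
      constructor
      · intro h4
        exact inv_perm P hw e h2 h3 _ _ h1 h4
      · intro h4
        exact inv_perm P hw e h2 h3 _ _ h1' h4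
    refine ⟨(e, R), ?_, h0, hee, hR⟩
    intro w hw'
    unfold R0 at hw'
    rw [Finset.mem_image] at hw'
    obtain ⟨z, -, rfl⟩ := hw'
    dsimp only
    rw [← hR]
    obtain ⟨u, y, hu0, hu, hy, hall⟩ := hbig
    dsimp only at hu hy hall
    have hu1 : u = P.i 1 := by
      obtain ⟨a, ha⟩ := P.surj u hu0
      have := hu (P.i 1)
      rw [← ha, P.mul, mul_one] at this
      rw [← ha, P.inj this]
    have hy1 : y = P.i e := by
      rcases P.cases y with rfl | ⟨b, rfl⟩
      · have hcomm : h u 0 = h 0 u := hw.2.1 u 0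
        have hz : h 0 u = {u} := hw.2.2.1 u
        rw [hcomm, hz] at hy
        exact absurd hy.symm hu0
      · rw [hu1, h0, mul_one] at hy
        rw [hy]
    rw [← hu1, ← hy1]
    exact hall _
  choose! F hF using key
  refine Finset.card_le_card_of_injOn F ?_ ?_
  · intro h hh
    have := (hF h hh).1
    simp only [Finset.coe_filter, Finset.mem_univ, true_and]
    exact this
  · intro h hh h' hh' heq
    obtain ⟨-, a1, a2, a3⟩ := hF h hh
    obtain ⟨-, b1, b2, b3⟩ := hF h' hh'
    rw [← heq] at b1 b2 b3
    have w1 : IsW r (m, h) := (Finset.mem_filter.1 hh).2.1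
    have w2 : IsW r (m, h') := (Finset.mem_filter.1 hh').2.1
    have z1 : ∀ x, h 0 x = {x} := w1.2.2.1
    have z2 : ∀ x, h' 0 x = {x} := w2.2.2.1
    have c1 : ∀ x y, h x y = h y x := w1.2.1
    have c2 : ∀ x y, h' x y = h' y x := w2.2.1
    funext x y
    rcases P.cases x with rfl | ⟨a, rfl⟩
    · rw [z1, z2]
    rcases P.cases y with rfl | ⟨b, rfl⟩
    · rw [c1, c2, z1, z2]
    ext z
    rcases P.cases z with rfl | ⟨c, rfl⟩
    · rw [a1, b1]
    · have := a3 a b ((F h).1 * c)
      have h' := b3 a b ((F h).1 * c)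
      rw [← mul_assoc, a2, one_mul] at this h'
      rw [this, h']

open Classical in
/-- Over a fixed multiplication table, few structures are big. -/
theorem table_count (hm : IsM r m)
    (hr : 2 * r ^ 4 * 3 ^ (r / 24) ≤ 4 ^ (r / 24)) :
    ((Finset.univ : Finset (Fin (r+1) → Fin (r+1) → Set (Fin (r+1)))).filter
      (fun h => IsW r (m, h) ∧ Big r (m, h))).card * 2 ^ (r / 6) ≤
    2 * r * ((Finset.univ : Finset (Fin (r+1) → Fin (r+1) → Set (Fin (r+1)))).filter
      (fun h => IsH r (m, h))).card ∧
    2 ^ (r / 6) ≤ 2 * ((Finset.univ : Finset (Fin (r+1) → Fin (r+1) → Set (Fin (r+1)))).filter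
      (fun h => IsH r (m, h))).card := by
  obtain ⟨A, _, ⟨P⟩⟩ := exists_pres hm
  have : Finite A := Finite.of_injective P.i P.inj
  let _ : Fintype A := Fintype.ofFinite A
  have hc : Fintype.card A = r := P.card
  have h1 := upper_count P
  have h2 := forced_count (A := A)
  have h3 := gen_half (A := A) (by rw [hc]; exact hr)
  have h4 : ((Finset.univ : Finset (Om A → Bool)).filter Gen).card ≤
      ((Finset.univ : Finset (Fin (r+1) → Fin (r+1) → Set (Fin (r+1)))).filter
      (fun h => IsH r (m, h))).card := by
    refine Finset.card_le_card_of_injOn (hadd P) ?_ ((hadd_injective P).injOn)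
    intro R hR
    have hR' : Gen R := (Finset.mem_filter.1 hR).2
    simp only [Finset.coe_filter, Finset.mem_univ, true_and]
    exact isH_hadd P hm R hR'
  rw [hc] at h2
  constructor
  · calc _ ≤ ((Finset.univ : Finset (A × (Om A → Bool))).filter
        (fun p => ∀ w ∈ R0 p.1, p.2 w = true)).card * 2 ^ (r / 6) := Nat.mul_le_mul_right _ h1
      _ ≤ r * 2 ^ Fintype.card (Om A) := h2
      _ ≤ r * (2 * ((Finset.univ : Finset (Om A → Bool)).filter Gen).card) :=
          Nat.mul_le_mul_left _ h3
      _ ≤ r * (2 * ((Finset.univ : Finset (Fin (r+1) → Fin (r+1) → Set (Fin (r+1)))).filter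
      (fun h => IsH r (m, h))).card) := Nat.mul_le_mul_left _ (Nat.mul_le_mul_left _ h4)
      _ = _ := by ring
  · have h5 := om_card (A := A) 1
    rw [hc] at h5
    calc 2 ^ (r / 6) ≤ 2 ^ Fintype.card (Om A) := Nat.pow_le_pow_right (by norm_num) h5
      _ ≤ _ := h3
      _ ≤ _ := Nat.mul_le_mul_left _ h4

/-- A finite group has a generating set of logarithmic size. -/
theorem exists_gens (A : Type) [CommGroup A] [Fintype A] :
    ∃ S : Finset A, Subgroup.closure (S : Set A) = ⊤ ∧ 2 ^ S.card ≤ Fintype.card A := by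
  classical
  obtain ⟨S, hS, hmax⟩ := Finset.exists_max_image
    ((Finset.univ : Finset (Finset A)).filter
      (fun S : Finset A => 2 ^ S.card ≤ Nat.card (Subgroup.closure (S : Set A)))) Finset.card
    ⟨∅, by simp⟩
  rw [Finset.mem_filter] at hS
  have hle : ∀ H : Subgroup A, Nat.card H ≤ Fintype.card A := by
    intro H
    rw [← Nat.card_eq_fintype_card]
    exact Nat.card_le_card_of_injective _ H.subtype_injective
  refine ⟨S, ?_, hS.2.trans (hle _)⟩
  by_contra hne
  obtain ⟨a, ha⟩ : ∃ a, a ∉ Subgroup.closure (S : Set A) := by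
    by_contra h
    push Not at h
    exact hne (eq_top_iff.2 fun x _ => h x)
  have haS : a ∉ S := fun h => ha (Subgroup.subset_closure h)
  have hlt : Subgroup.closure (S : Set A) < Subgroup.closure ((insert a S : Finset A) : Set A) := by
    refine lt_of_le_of_ne (Subgroup.closure_mono (by simp)) ?_
    intro h
    apply ha
    rw [h]
    exact Subgroup.subset_closure (by simp)
  have hdvd : Nat.card (Subgroup.closure (S : Set A)) ∣
      Nat.card (Subgroup.closure ((insert a S : Finset A) : Set A)) :=
    Subgroup.card_dvd_of_le hlt.le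
  have hcard : 2 * Nat.card (Subgroup.closure (S : Set A)) ≤
      Nat.card (Subgroup.closure ((insert a S : Finset A) : Set A)) := by
    obtain ⟨k, hk⟩ := hdvd
    have hpos : 0 < Nat.card (Subgroup.closure ((insert a S : Finset A) : Set A)) := Nat.card_pos
    have hne : Nat.card (Subgroup.closure (S : Set A)) ≠
        Nat.card (Subgroup.closure ((insert a S : Finset A) : Set A)) := by
      intro h
      have := Subgroup.eq_of_le_of_card_ge hlt.le h.ge
      exact hlt.ne this
    have hk0 : k ≠ 0 := by rintro rfl; rw [mul_zero] at hk; omega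
    have hk1 : k ≠ 1 := by rintro rfl; rw [mul_one] at hk; exact hne hk.symm
    have hk2 : 2 ≤ k := by omega
    rw [hk, mul_comm]
    exact Nat.mul_le_mul_left _ hk2
  have := hmax (insert a S) (by
    rw [Finset.mem_filter]
    refine ⟨Finset.mem_univ _, ?_⟩
    rw [Finset.card_insert_of_notMem haS, pow_succ, mul_comm]
    exact (Nat.mul_le_mul_left 2 hS.2).trans hcard)
  rw [Finset.card_insert_of_notMem haS] at this
  omega

open Classical in
/-- Few automorphisms of a multiplication table. -/
theorem aut_count (hm : IsM r m) :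
    ((Finset.univ : Finset (Equiv.Perm (Fin (r+1)))).filter
      (fun e => ∀ a b, e (m a b) = m (e a) (e b))).card ≤ (r + 1) ^ (Nat.log 2 r) := by
  obtain ⟨A, _, ⟨P⟩⟩ := exists_pres hm
  have : Finite A := Finite.of_injective P.i P.inj
  let _ : Fintype A := Fintype.ofFinite A
  have hc : Fintype.card A = r := P.card
  obtain ⟨S, hS, hScard⟩ := exists_gens A
  have hr0 : r ≠ 0 := by
    rw [← hc]; exact Fintype.card_ne_zero
  have hlog : S.card ≤ Nat.log 2 r := by
    rw [hc] at hScard
    exact Nat.le_log_of_pow_le (by norm_num) hScard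
  have hm0 : ∀ a, m 0 a = 0 := hm.2.2.2.1
  have hm0' : ∀ a, m a 0 = 0 := fun a => by rw [hm.2.1, hm0]
  have hzero : ∀ e : Equiv.Perm (Fin (r+1)), (∀ a b, e (m a b) = m (e a) (e b)) → e 0 = 0 := by
    intro e he
    have := he 0 (e.symm 0)
    rw [hm0, Equiv.apply_symm_apply, hm0'] at this
    exact this
  calc _ ≤ (Finset.univ : Finset (S → Fin (r+1))).card := by
        refine Finset.card_le_card_of_injOn (fun e s => e (P.i s)) (fun _ _ => Finset.mem_coe.2 (Finset.mem_univ _)) ?_
        intro e he e' he' heq
        have he1 : ∀ a b, e (m a b) = m (e a) (e b) := (Finset.mem_filter.1 he).2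
        have he2 : ∀ a b, e' (m a b) = m (e' a) (e' b) := (Finset.mem_filter.1 he').2
        -- the set where they agree is a subgroup
        have hne : ∀ (e : Equiv.Perm (Fin (r+1))), (∀ a b, e (m a b) = m (e a) (e b)) →
            ∀ a, ∃ b, P.i b = e (P.i a) := by
          intro e he a
          refine P.surj _ fun h => P.ne a ?_
          have : e (P.i a) = e 0 := by rw [h, hzero e he]
          exact e.injective this
        choose g hg using hne e he1
        choose g' hg' using hne e' he2
        have gmul : ∀ a b, g (a * b) = g a * g b := by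
          intro a b
          apply P.inj
          rw [hg, ← P.mul, he1, ← hg, ← hg, P.mul]
        have gmul' : ∀ a b, g' (a * b) = g' a * g' b := by
          intro a b
          apply P.inj
          rw [hg', ← P.mul, he2, ← hg', ← hg', P.mul]
        let φ : A →* A := MonoidHom.mk' g gmul
        let φ' : A →* A := MonoidHom.mk' g' gmul'
        have hφ : φ = φ' := by
          refine MonoidHom.eq_of_eqOn_dense hS ?_
          intro a ha
          have := congrFun heq ⟨a, ha⟩
          dsimp only at this
          rw [← hg, ← hg'] at this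
          exact P.inj this
        ext1 x
        rcases P.cases x with rfl | ⟨a, rfl⟩
        · rw [hzero e he1, hzero e' he2]
        · rw [← hg, ← hg']
          have := DFunLike.congr_fun hφ a
          exact congrArg P.i this
    _ = (r + 1) ^ S.card := by
        rw [Finset.card_univ, Fintype.card_fun, Fintype.card_fin, Fintype.card_coe]
    _ ≤ _ := Nat.pow_le_pow_right (Nat.succ_pos r) hlog

end Pool.Agent.W360.HF
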